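import Pool.Agent.TH640.Cells

/-!
Certificate data (generated).
-/

set_option maxRecDepth 100000

namespace Pool.Agent.TH640.Data

open Pool.Agent.TH640

/-- the facets -/
def facT : BT (ℕ × List ℕ) :=
    .nd (.nd (.nd (.nd (.nd (.nd (.nd (.nd (.nd .lf 865 (1, [0, 5, 6, 8, 9]) .lf) 866 (2, [1, 5, 6, 8,
    9]) .lf) 1236 (1, [2, 4, 6, 7, 10]) (.nd (.nd .lf 1428 (1, [2, 4, 7, 8, 10]) .lf) 2881 (1, [0, 6, 8,
    9, 11]) .lf)) 6913 (1, [0, 8, 9, 11, 12]) (.nd (.nd (.nd .lf 7178 (2, [1, 3, 10, 11, 12]) .lf) 14376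
    (2, [3, 5, 11, 12, 13]) .lf) 16497 (1, [0, 4, 5, 6, 14]) (.nd (.nd .lf 16500 (2, [2, 4, 5, 6, 14])
    .lf) 16737 (2, [0, 5, 6, 8, 14]) .lf))) 23042 (1, [1, 9, 11, 12, 14]) (.nd (.nd (.nd (.nd .lf 23554
    (2, [1, 10, 11, 12, 14]) .lf) 33157 (2, [0, 2, 7, 8, 15]) .lf) 33172 (2, [2, 4, 7, 8, 15]) (.nd (.nd
    .lf 33321 (2, [0, 3, 5, 9, 15]) .lf) 34192 (2, [4, 7, 8, 10, 15]) .lf)) 34576 (2, [4, 8, 9, 10, 15])
    (.nd (.nd (.nd .lf 49283 (1, [0, 1, 7, 14, 15]) .lf) 49537 (1, [0, 7, 8, 14, 15]) .lf) 50306 (2, [1,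
    7, 10, 14, 15]) (.nd (.nd .lf 50560 (2, [7, 8, 10, 14, 15]) .lf) 52226 (2, [1, 10, 11, 14, 15])
    .lf)))) 81969 (1, [0, 4, 5, 14, 16]) (.nd (.nd (.nd (.nd (.nd .lf 98345 (2, [0, 3, 5, 15, 16]) .lf)
    100418 (1, [1, 6, 11, 15, 16]) .lf) 131284 (2, [2, 4, 6, 7, 17]) (.nd (.nd .lf 133441 (1, [0, 6, 8,
    11, 17]) .lf) 137473 (2, [0, 8, 11, 12, 17]) .lf)) 145440 (1, [5, 11, 12, 13, 17]) (.nd (.nd (.nd
    .lf 147537 (2, [0, 4, 6, 14, 17]) .lf) 147540 (1, [2, 4, 6, 14, 17]) .lf) 147777 (2, [0, 6, 8, 14,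
    17]) (.nd (.nd .lf 147988 (2, [2, 4, 9, 14, 17]) .lf) 163988 (2, [2, 4, 7, 15, 17]) .lf))) 164372
    (1, [2, 4, 9, 15, 17]) (.nd (.nd (.nd (.nd .lf 164994 (2, [1, 7, 10, 15, 17]) .lf) 165008 (1, [4, 7,
    10, 15, 17]) .lf) 165380 (1, [2, 9, 10, 15, 17]) (.nd (.nd .lf 165392 (2, [4, 9, 10, 15, 17]) .lf)
    197704 (2, [3, 6, 10, 16, 17]) .lf)) 210944 (1, [11, 12, 13, 16, 17]) (.nd (.nd (.nd .lf 262257 (2,
    [0, 4, 5, 6, 18]) .lf) 262260 (1, [2, 4, 5, 6, 18]) .lf) 263252 (1, [2, 4, 6, 10, 18]) (.nd .lf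
    278547 (2, [0, 1, 4, 14, 18]) .lf))))) 278628 (2, [2, 5, 6, 14, 18]) (.nd (.nd (.nd (.nd (.nd (.nd
    .lf 278880 (1, [5, 6, 8, 14, 18]) .lf) 279058 (1, [1, 4, 9, 14, 18]) .lf) 281090 (1, [1, 9, 11, 14,
    18]) (.nd (.nd .lf 311299 (2, [0, 1, 14, 15, 18]) .lf) 311553 (1, [0, 8, 14, 15, 18]) .lf)) 311584
    (2, [5, 8, 14, 15, 18]) (.nd (.nd (.nd .lf 313346 (2, [1, 11, 14, 15, 18]) .lf) 394308 (2, [2, 6,
    10, 17, 18]) .lf) 394756 (1, [2, 9, 10, 17, 18]) (.nd (.nd .lf 394768 (2, [4, 9, 10, 17, 18]) .lf)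
    397569 (1, [0, 8, 12, 17, 18]) .lf))) 397632 (2, [6, 8, 12, 17, 18]) (.nd (.nd (.nd (.nd .lf 409617
    (1, [0, 4, 14, 17, 18]) .lf) 409668 (1, [2, 6, 14, 17, 18]) .lf) 409857 (2, [0, 8, 14, 17, 18]) (.nd
    (.nd .lf 409920 (1, [6, 8, 14, 17, 18]) .lf) 410116 (2, [2, 9, 14, 17, 18]) .lf)) 410128 (1, [4, 9,
    14, 17, 18]) (.nd (.nd (.nd .lf 459840 (1, [6, 10, 16, 17, 18]) .lf) 462912 (2, [6, 12, 16, 17, 18])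
    .lf) 524677 (1, [0, 2, 7, 8, 19]) (.nd .lf 525061 (1, [0, 2, 8, 9, 19]) .lf)))) 525089 (2, [0, 5, 8,
    9, 19]) (.nd (.nd (.nd (.nd (.nd .lf 525508 (1, [2, 6, 7, 10, 19]) .lf) 525700 (1, [2, 7, 8, 10,
    19]) .lf) 526084 (1, [2, 8, 9, 10, 19]) (.nd (.nd .lf 527370 (1, [1, 3, 10, 11, 19]) .lf) 531464 (1,
    [3, 10, 11, 12, 19]) .lf)) 533576 (1, [3, 6, 10, 13, 19]) (.nd (.nd (.nd .lf 537608 (1, [3, 10, 12,
    13, 19]) .lf) 538632 (2, [3, 11, 12, 13, 19]) .lf) 540691 (1, [0, 1, 4, 14, 19]) (.nd (.nd .lf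
    540803 (2, [0, 1, 7, 14, 19]) .lf) 540961 (1, [0, 5, 8, 14, 19]) .lf))) 541057 (2, [0, 7, 8, 14,
    19]) (.nd (.nd (.nd (.nd .lf 542080 (1, [7, 8, 10, 14, 19]) .lf) 547840 (1, [10, 11, 12, 14, 19])
    .lf) 557187 (1, [0, 1, 7, 15, 19]) (.nd (.nd .lf 557189 (2, [0, 2, 7, 15, 19]) .lf) 557573 (1, [0,
    2, 9, 15, 19]) .lf)) 557601 (2, [0, 5, 9, 15, 19]) (.nd (.nd (.nd .lf 557856 (2, [5, 8, 9, 15, 19])
    .lf) 558596 (2, [2, 9, 10, 15, 19]) .lf) 558848 (1, [8, 9, 10, 15, 19]) (.nd .lf 560130 (2, [1, 10,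
    11, 15, 19]) .lf)))))) 573728 (1, [5, 8, 14, 15, 19]) (.nd (.nd (.nd (.nd (.nd (.nd (.nd .lf 574720
    (1, [8, 10, 14, 15, 19]) .lf) 576512 (1, [10, 11, 14, 15, 19]) .lf) 589843 (2, [0, 1, 4, 16, 19])
    (.nd (.nd .lf 593938 (1, [1, 4, 12, 16, 19]) .lf) 604160 (2, [11, 12, 13, 16, 19]) .lf)) 606225 (2,
    [0, 4, 14, 16, 19]) (.nd (.nd (.nd .lf 606241 (1, [0, 5, 14, 16, 19]) .lf) 610320 (2, [4, 12, 14,
    16, 19]) .lf) 612352 (1, [11, 12, 14, 16, 19]) (.nd (.nd .lf 622595 (1, [0, 1, 15, 16, 19]) .lf)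
    622625 (2, [0, 5, 15, 16, 19]) .lf))) 624642 (1, [1, 11, 15, 16, 19]) (.nd (.nd (.nd (.nd .lf 639008
    (2, [5, 14, 15, 16, 19]) .lf) 641024 (1, [11, 14, 15, 16, 19]) .lf) 655556 (2, [2, 6, 7, 17, 19])
    (.nd (.nd .lf 656394 (2, [1, 3, 10, 17, 19]) .lf) 656452 (1, [2, 6, 10, 17, 19]) .lf)) 656456 (2,
    [3, 6, 10, 17, 19]) (.nd (.nd (.nd .lf 688258 (1, [1, 7, 15, 17, 19]) .lf) 688260 (2, [2, 7, 15, 17,
    19]) .lf) 689154 (2, [1, 10, 15, 17, 19]) (.nd .lf 689156 (1, [2, 10, 15, 17, 19]) .lf)))) 1049808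
    (2, [4, 6, 7, 10, 20]) (.nd (.nd (.nd (.nd (.nd .lf 1051201 (2, [0, 6, 9, 11, 20]) .lf) 1051202 (1,
    [1, 6, 9, 11, 20]) .lf) 1053249 (1, [0, 6, 9, 12, 20]) (.nd (.nd .lf 1053250 (2, [1, 6, 9, 12, 20])
    .lf) 1054730 (1, [1, 3, 11, 12, 20]) .lf)) 1054760 (1, [3, 5, 11, 12, 20]) (.nd (.nd (.nd .lf
    1055233 (1, [0, 9, 11, 12, 20]) .lf) 1055234 (2, [1, 9, 11, 12, 20]) .lf) 1116226 (1, [1, 6, 11, 16,
    20]) (.nd (.nd .lf 1118274 (2, [1, 6, 12, 16, 20]) .lf) 1179729 (2, [0, 4, 6, 17, 20]) .lf)))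
    1179856 (1, [4, 6, 7, 17, 20]) (.nd (.nd (.nd (.nd .lf 1180816 (1, [4, 7, 10, 17, 20]) .lf) 1181761
    (2, [0, 6, 11, 17, 20]) .lf) 1181856 (1, [5, 7, 11, 17, 20]) (.nd (.nd .lf 1181888 (2, [6, 7, 11,
    17, 20]) .lf) 1185793 (2, [0, 11, 12, 17, 20]) .lf)) 1185824 (1, [5, 11, 12, 17, 20]) (.nd (.nd (.nd
    .lf 1191968 (1, [5, 12, 13, 17, 20]) .lf) 1257472 (2, [12, 13, 16, 17, 20]) .lf) 1310801 (1, [0, 4,
    6, 18, 20]) (.nd .lf 1311824 (2, [4, 6, 10, 18, 20]) .lf))))) 1314881 (1, [0, 6, 12, 18, 20]) (.nd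
    (.nd (.nd (.nd (.nd (.nd .lf 1377344 (1, [6, 10, 16, 18, 20]) .lf) 1380416 (2, [6, 12, 16, 18, 20])
    .lf) 1441809 (2, [0, 4, 17, 18, 20]) (.nd (.nd .lf 1442832 (2, [4, 10, 17, 18, 20]) .lf) 1445889 (1,
    [0, 12, 17, 18, 20]) .lf)) 1508352 (2, [10, 16, 17, 18, 20]) (.nd (.nd (.nd .lf 1511424 (1, [12, 16,
    17, 18, 20]) .lf) 1574922 (2, [1, 3, 11, 19, 20]) .lf) 1583112 (1, [3, 11, 13, 19, 20]) (.nd (.nd
    .lf 1640450 (2, [1, 11, 16, 19, 20]) .lf) 1642498 (1, [1, 12, 16, 19, 20]) .lf))) 1648640 (2, [11,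
    13, 16, 19, 20]) (.nd (.nd (.nd (.nd .lf 1650688 (1, [12, 13, 16, 19, 20]) .lf) 2097506 (1, [1, 5,
    6, 8, 21]) .lf) 2097705 (1, [0, 3, 5, 9, 21]) (.nd (.nd .lf 2097761 (1, [0, 5, 6, 9, 21]) .lf)
    2097762 (2, [1, 5, 6, 9, 21]) .lf)) 2097826 (1, [1, 5, 7, 9, 21]) (.nd (.nd (.nd .lf 2097832 (2, [3,
    5, 7, 9, 21]) .lf) 2097925 (2, [0, 2, 8, 9, 21]) .lf) 2101524 (2, [2, 4, 8, 12, 21]) (.nd .lf
    2101570 (2, [1, 6, 8, 12, 21]) .lf)))) 2101825 (2, [0, 6, 9, 12, 21]) (.nd (.nd (.nd (.nd (.nd .lf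
    2101826 (1, [1, 6, 9, 12, 21]) .lf) 2102017 (1, [0, 8, 9, 12, 21]) .lf) 2102020 (2, [2, 8, 9, 12,
    21]) (.nd (.nd .lf 2114068 (1, [2, 4, 9, 14, 21]) .lf) 2114178 (2, [1, 7, 9, 14, 21]) .lf)) 2114690
    (1, [1, 7, 10, 14, 21]) (.nd (.nd (.nd .lf 2117652 (2, [2, 4, 12, 14, 21]) .lf) 2118146 (2, [1, 9,
    12, 14, 21]) .lf) 2118148 (1, [2, 9, 12, 14, 21]) (.nd (.nd .lf 2118658 (1, [1, 10, 12, 14, 21])
    .lf) 2130181 (1, [0, 2, 8, 15, 21]) .lf))) 2130196 (1, [2, 4, 8, 15, 21]) (.nd (.nd (.nd (.nd .lf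
    2130437 (2, [0, 2, 9, 15, 21]) .lf) 2130441 (1, [0, 3, 9, 15, 21]) .lf) 2130452 (2, [2, 4, 9, 15,
    21]) (.nd (.nd .lf 2228386 (2, [1, 5, 7, 17, 21]) .lf) 2229378 (2, [1, 7, 10, 17, 21]) .lf)) 2359393
    (2, [0, 5, 6, 18, 21]) (.nd (.nd (.nd .lf 2359648 (1, [5, 6, 8, 18, 21]) .lf) 2363457 (2, [0, 6, 12,
    18, 21]) .lf) 2363649 (1, [0, 8, 12, 18, 21]) (.nd .lf 2363712 (2, [6, 8, 12, 18, 21]) .lf)))))))
    2392321 (2, [0, 8, 15, 18, 21]) (.nd (.nd (.nd (.nd (.nd (.nd (.nd (.nd .lf 2392352 (1, [5, 8, 15,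
    18, 21]) .lf) 3145896 (1, [3, 5, 7, 20, 21]) .lf) 3276960 (2, [5, 7, 17, 20, 21]) (.nd (.nd .lf
    3277952 (2, [7, 10, 17, 20, 21]) .lf) 3285024 (1, [5, 13, 17, 20, 21]) .lf)) 4199434 (2, [1, 3, 10,
    12, 22]) (.nd (.nd (.nd .lf 4203592 (2, [3, 6, 10, 13, 22]) .lf) 4206632 (1, [3, 5, 12, 13, 22])
    .lf) 4207624 (2, [3, 10, 12, 13, 22]) (.nd (.nd .lf 4235304 (1, [3, 5, 13, 15, 22]) .lf) 4235336 (2,
    [3, 6, 13, 15, 22]) .lf))) 4260936 (1, [3, 6, 10, 16, 22]) (.nd (.nd (.nd (.nd .lf 4292648 (1, [3,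
    5, 15, 16, 22]) .lf) 4292680 (2, [3, 6, 15, 16, 22]) .lf) 4294720 (2, [6, 11, 15, 16, 22]) (.nd (.nd
    .lf 4309024 (1, [5, 14, 15, 16, 22]) .lf) 4311040 (2, [11, 14, 15, 16, 22]) .lf)) 4326410 (1, [1, 3,
    10, 17, 22]) (.nd (.nd (.nd .lf 4391944 (2, [3, 10, 16, 17, 22]) .lf) 4727872 (2, [6, 10, 13, 19,
    22]) .lf) 4731904 (2, [10, 12, 13, 19, 22]) (.nd .lf 4849674 (1, [1, 3, 17, 19, 22]) .lf)))) 5246986
    (2, [1, 3, 12, 20, 22]) (.nd (.nd (.nd (.nd (.nd .lf 5247016 (2, [3, 5, 12, 20, 22]) .lf) 5255200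
    (1, [5, 12, 13, 20, 22]) .lf) 5767178 (1, [1, 3, 19, 20, 22]) (.nd (.nd .lf 5771266 (2, [1, 12, 19,
    20, 22]) .lf) 5779456 (2, [12, 13, 19, 20, 22]) .lf)) 8389394 (1, [1, 4, 8, 9, 23]) (.nd (.nd (.nd
    .lf 8389442 (2, [1, 6, 8, 9, 23]) .lf) 8389908 (2, [2, 4, 8, 10, 23]) .lf) 8390404 (2, [2, 8, 9, 10,
    23]) (.nd (.nd .lf 8390416 (1, [4, 8, 9, 10, 23]) .lf) 8391234 (2, [1, 6, 9, 11, 23]) .lf))) 8391488
    (2, [6, 8, 9, 11, 23]) (.nd (.nd (.nd (.nd .lf 8392978 (2, [1, 4, 8, 12, 23]) .lf) 8392980 (1, [2,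
    4, 8, 12, 23]) .lf) 8393026 (1, [1, 6, 8, 12, 23]) (.nd (.nd .lf 8393476 (1, [2, 8, 9, 12, 23]) .lf)
    8395520 (2, [8, 9, 11, 12, 23]) .lf)) 8405044 (2, [2, 4, 5, 14, 23]) (.nd (.nd (.nd .lf 8409108 (1,
    [2, 4, 12, 14, 23]) .lf) 8409604 (2, [2, 9, 12, 14, 23]) .lf) 8411648 (2, [9, 11, 12, 14, 23]) (.nd
    .lf 8423490 (2, [1, 6, 11, 15, 23]) .lf))))) 8429640 (1, [3, 6, 13, 15, 23]) (.nd (.nd (.nd (.nd
    (.nd (.nd .lf 8454163 (1, [0, 1, 4, 16, 23]) .lf) 8454185 (2, [0, 3, 5, 16, 23]) .lf) 8454193 (1,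
    [0, 4, 5, 16, 23]) (.nd (.nd .lf 8458258 (2, [1, 4, 12, 16, 23]) .lf) 8458306 (1, [1, 6, 12, 16,
    23]) .lf)) 8470576 (2, [4, 5, 14, 16, 23]) (.nd (.nd (.nd .lf 8474640 (1, [4, 12, 14, 16, 23]) .lf)
    8476672 (2, [11, 12, 14, 16, 23]) .lf) 8486915 (2, [0, 1, 15, 16, 23]) (.nd (.nd .lf 8486921 (1, [0,
    3, 15, 16, 23]) .lf) 8486978 (2, [1, 6, 15, 16, 23]) .lf))) 8486984 (1, [3, 6, 15, 16, 23]) (.nd
    (.nd (.nd (.nd .lf 8522048 (2, [6, 8, 11, 17, 23]) .lf) 8524096 (1, [6, 8, 12, 17, 23]) .lf) 8526080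
    (1, [8, 11, 12, 17, 23]) (.nd (.nd .lf 8585288 (1, [3, 6, 16, 17, 23]) .lf) 8589376 (1, [6, 12, 16,
    17, 23]) .lf)) 8591360 (2, [11, 12, 16, 17, 23]) (.nd (.nd (.nd .lf 8650771 (2, [0, 1, 4, 18, 23])
    .lf) 8650801 (2, [0, 4, 5, 18, 23]) .lf) 8650804 (1, [2, 4, 5, 18, 23]) (.nd .lf 8651282 (1, [1, 4,
    9, 18, 23]) .lf)))) 8651796 (2, [2, 4, 10, 18, 23]) (.nd (.nd (.nd (.nd (.nd .lf 8652292 (1, [2, 9,
    10, 18, 23]) .lf) 8652304 (2, [4, 9, 10, 18, 23]) .lf) 8653314 (1, [1, 9, 11, 18, 23]) (.nd (.nd .lf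
    8667172 (1, [2, 5, 14, 18, 23]) .lf) 8667652 (2, [2, 9, 14, 18, 23]) .lf)) 8669696 (2, [9, 11, 14,
    18, 23]) (.nd (.nd (.nd .lf 8683523 (1, [0, 1, 15, 18, 23]) .lf) 8685570 (1, [1, 11, 15, 18, 23])
    .lf) 8699936 (2, [5, 14, 15, 18, 23]) (.nd (.nd .lf 8701952 (1, [11, 14, 15, 18, 23]) .lf) 8921160
    (2, [3, 6, 13, 19, 23]) .lf))) 9044040 (1, [3, 6, 17, 19, 23]) (.nd (.nd (.nd (.nd .lf 9969672 (1,
    [3, 13, 19, 20, 23]) .lf) 10485801 (1, [0, 3, 5, 21, 23]) .lf) 10518537 (2, [0, 3, 15, 21, 23]) (.nd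
    (.nd .lf 10526728 (2, [3, 13, 15, 21, 23]) .lf) 10526752 (1, [5, 13, 15, 21, 23]) .lf)) 10747937 (1,
    [0, 5, 18, 21, 23]) (.nd (.nd (.nd .lf 10780673 (2, [0, 15, 18, 21, 23]) .lf) 10780704 (1, [5, 15,
    18, 21, 23]) .lf) 11534376 (2, [3, 5, 20, 21, 23]) (.nd .lf 11542536 (1, [3, 13, 20, 21, 23])
    .lf)))))) 11542560 (2, [5, 13, 20, 21, 23]) (.nd (.nd (.nd (.nd (.nd (.nd (.nd .lf 12617792 (2, [6,
    11, 15, 22, 23]) .lf) 12623904 (2, [5, 13, 15, 22, 23]) .lf) 12623936 (1, [6, 13, 15, 22, 23]) (.nd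
    (.nd .lf 12632096 (1, [5, 14, 15, 22, 23]) .lf) 12634112 (2, [11, 14, 15, 22, 23]) .lf)) 12648488
    (2, [3, 5, 16, 22, 23]) (.nd (.nd (.nd .lf 12664864 (2, [5, 14, 16, 22, 23]) .lf) 12666880 (1, [11,
    14, 16, 22, 23]) .lf) 12716096 (1, [6, 11, 17, 22, 23]) (.nd (.nd .lf 12779528 (2, [3, 16, 17, 22,
    23]) .lf) 12781568 (1, [11, 16, 17, 22, 23]) .lf))) 13115456 (2, [6, 13, 19, 22, 23]) (.nd (.nd (.nd
    (.nd .lf 13238280 (2, [3, 17, 19, 22, 23]) .lf) 13238336 (1, [6, 17, 19, 22, 23]) .lf) 13631528 (1,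
    [3, 5, 20, 22, 23]) (.nd (.nd .lf 13639712 (1, [5, 13, 20, 22, 23]) .lf) 14155784 (2, [3, 19, 20,
    22, 23]) .lf)) 14163968 (1, [13, 19, 20, 22, 23]) (.nd (.nd (.nd .lf 16777890 (2, [1, 5, 7, 9, 24])
    .lf) 16777896 (1, [3, 5, 7, 9, 24]) .lf) 16778002 (2, [1, 4, 8, 9, 24]) (.nd .lf 16778018 (1, [1, 5,
    8, 9, 24]) .lf)))) 16781586 (1, [1, 4, 8, 12, 24]) (.nd (.nd (.nd (.nd (.nd .lf 16787496 (2, [3, 5,
    11, 13, 24]) .lf) 16794130 (2, [1, 4, 9, 14, 24]) .lf) 16794242 (1, [1, 7, 9, 14, 24]) (.nd (.nd .lf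
    16810536 (1, [3, 5, 9, 15, 24]) .lf) 16810768 (2, [4, 8, 9, 15, 24]) .lf)) 16810784 (1, [5, 8, 9,
    15, 24]) (.nd (.nd (.nd .lf 16818216 (2, [3, 5, 13, 15, 24]) .lf) 16908450 (1, [1, 5, 7, 17, 24])
    .lf) 16910496 (2, [5, 7, 11, 17, 24]) (.nd (.nd .lf 16910528 (1, [6, 7, 11, 17, 24]) .lf) 16918560
    (2, [5, 11, 13, 17, 24]) .lf))) 16984064 (1, [11, 13, 16, 17, 24]) (.nd (.nd (.nd (.nd .lf 17302720
    (2, [6, 7, 10, 19, 24]) .lf) 17305618 (1, [1, 4, 12, 19, 24]) .lf) 17317906 (2, [1, 4, 14, 19, 24])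
    (.nd (.nd .lf 17318018 (1, [1, 7, 14, 19, 24]) .lf) 17319040 (1, [7, 10, 14, 19, 24]) .lf)) 17322000
    (2, [4, 12, 14, 19, 24]) (.nd (.nd (.nd .lf 17323008 (1, [10, 12, 14, 19, 24]) .lf) 17432706 (2, [1,
    7, 17, 19, 24]) .lf) 17432768 (1, [6, 7, 17, 19, 24]) (.nd .lf 17825960 (2, [3, 5, 7, 20, 24])
    .lf))))) 17827008 (1, [6, 7, 10, 20, 24]) (.nd (.nd (.nd (.nd (.nd (.nd .lf 17827880 (1, [3, 5, 11,
    20, 24]) .lf) 17828000 (1, [5, 7, 11, 20, 24]) .lf) 17828032 (2, [6, 7, 11, 20, 24]) (.nd (.nd .lf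
    17836040 (1, [3, 11, 13, 20, 24]) .lf) 17892416 (1, [6, 10, 16, 20, 24]) .lf)) 17893440 (2, [6, 11,
    16, 20, 24]) (.nd (.nd (.nd .lf 17901568 (2, [11, 13, 16, 20, 24]) .lf) 18023424 (2, [10, 16, 17,
    20, 24]) .lf) 18030592 (1, [13, 16, 17, 20, 24]) (.nd (.nd .lf 18874658 (2, [1, 5, 8, 21, 24]) .lf)
    18875016 (2, [3, 7, 9, 21, 24]) .lf))) 18878722 (2, [1, 8, 12, 21, 24]) (.nd (.nd (.nd (.nd .lf
    18878736 (1, [4, 8, 12, 21, 24]) .lf) 18879490 (1, [1, 10, 12, 21, 24]) .lf) 18891280 (2, [4, 9, 14,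
    21, 24]) (.nd (.nd .lf 18891392 (1, [7, 9, 14, 21, 24]) .lf) 18891904 (2, [7, 10, 14, 21, 24]) .lf))
    18894864 (1, [4, 12, 14, 21, 24]) (.nd (.nd (.nd .lf 18895872 (2, [10, 12, 14, 21, 24]) .lf)
    18907408 (2, [4, 8, 15, 21, 24]) .lf) 18907424 (1, [5, 8, 15, 21, 24]) (.nd .lf 18907656 (2, [3, 9,
    15, 21, 24]) .lf)))) 18907664 (1, [4, 9, 15, 21, 24]) (.nd (.nd (.nd (.nd (.nd .lf 18915336 (1, [3,
    13, 15, 21, 24]) .lf) 18915360 (2, [5, 13, 15, 21, 24]) .lf) 19005474 (1, [1, 5, 17, 21, 24]) (.nd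
    (.nd .lf 19006466 (2, [1, 10, 17, 21, 24]) .lf) 19013664 (1, [5, 13, 17, 21, 24]) .lf)) 19923080 (1,
    [3, 7, 20, 21, 24]) (.nd (.nd (.nd .lf 19924096 (1, [7, 10, 20, 21, 24]) .lf) 19931144 (2, [3, 13,
    20, 21, 24]) .lf) 20055040 (1, [10, 17, 20, 21, 24]) (.nd (.nd .lf 20062208 (2, [13, 17, 20, 21,
    24]) .lf) 20976642 (2, [1, 10, 12, 22, 24]) .lf))) 21038144 (2, [6, 10, 16, 22, 24]) (.nd (.nd (.nd
    (.nd .lf 21039168 (1, [6, 11, 16, 22, 24]) .lf) 21103618 (1, [1, 10, 17, 22, 24]) .lf) 21104704 (2,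
    [6, 11, 17, 22, 24]) (.nd (.nd .lf 21169152 (1, [10, 16, 17, 22, 24]) .lf) 21170176 (2, [11, 16, 17,
    22, 24]) .lf)) 21496896 (1, [6, 10, 19, 22, 24]) (.nd (.nd (.nd .lf 21499906 (2, [1, 12, 19, 22,
    24]) .lf) 21500928 (1, [10, 12, 19, 22, 24]) .lf) 21626882 (1, [1, 17, 19, 22, 24]) (.nd .lf
    21626944 (2, [6, 17, 19, 22, 24]) .lf)))))))

/-- table of the cocycle -/
def tabN : ℕ := 10832749529855913418061205470429513531264776103707659214845671019250785030879909896340981995136502051732991192423916690477764753947516136416450752620735100719627077398523557460604517647960541541314616620583645307387179339807222661618090534196944212628028210159308698184803279893533014864554079739871767902049870672442833712699049224170014544640038579049893709619015667778290423155360391131425546401999737969247185519223459264960303972560716333917916288642910532078849493552573479732874460601161742477227269126138287028935592216647334087100608466209731968961085440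

/-- the cocycle -/
def tab (u v : ℕ) : ℕ := Nat.land (Nat.shiftRight tabN (Nat.mul 3 (Nat.add (Nat.mul 25 u) v))) 7

end Pool.Agent.TH640.Data
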