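import Pool.Agent.TH640.Cells
import Pool.Agent.TH640.Data.Fac

/-!
Certificate data (generated).
-/

set_option maxRecDepth 100000

namespace Pool.Agent.TH640.Data

open Pool.Agent.TH640

/-- cells -/
def t0 : BT ℕ :=
    .nd (.nd (.nd .lf 8192 4731904 .lf) 65536 18023424 (.nd .lf 73728 604160 .lf)) 4194304 4326410 (.nd
    (.nd .lf 4202496 4731904 .lf) 4259840 12648488 .lf)

theorem c0 : chkCells 25 ⟨4268032, 12206599, 17079800, true, false, false⟩ 4268032 facT t0 = true := by decide +kernel

/-- the remaining graph -/
def o0 : List (ℕ × ℕ) :=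
    [(73728, 8192), (4202496, 8192), (65536, 73728), (4194304, 4202496), (4259840, 65536)]

/-- the collapse -/
def v0 : List ℕ :=
    []

/-- all cells in the order of the collapse -/
def l0 : List ℕ :=
    [8192, 73728, 4202496, 65536, 4194304, 4259840]

theorem k0 : collapseOK 25 1 1 8192 o0 v0 l0 t0 = true := by
  decide +kernel

end Pool.Agent.TH640.Data
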