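import Pool.Agent.TH640.Cells
import Pool.Agent.TH640.Data.Fac

/-!
Certificate data (generated).
-/

set_option maxRecDepth 100000

namespace Pool.Agent.TH640.Data

open Pool.Agent.TH640

/-- cells -/
def t1b : BT ℕ :=
    .nd (.nd (.nd (.nd (.nd (.nd (.nd .lf 1 8650771 .lf) 2 4326410 .lf) 3 8650771 (.nd (.nd .lf 4
    2101524 .lf) 5 557189 .lf)) 256 16810784 (.nd (.nd (.nd .lf 257 525089 .lf) 258 8392978 .lf) 260
    2101524 (.nd (.nd .lf 261 33157 .lf) 16384 639008 .lf))) 16385 147537 (.nd (.nd (.nd (.nd .lf 16386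
    2114178 .lf) 16387 311299 .lf) 16388 16500 (.nd (.nd .lf 16640 278880 .lf) 16641 541057 .lf)) 131072
    18023424 (.nd (.nd (.nd .lf 131073 147537 .lf) 131074 4326410 .lf) 131076 689156 (.nd .lf 131328
    147777 .lf)))) 131329 147777 (.nd (.nd (.nd (.nd (.nd .lf 147456 147537 .lf) 147457 147537 .lf)
    147460 409668 (.nd (.nd .lf 147712 147777 .lf) 147713 147777 .lf)) 524288 4731904 (.nd (.nd (.nd .lf
    524289 589843 .lf) 524290 589843 .lf) 524291 589843 (.nd (.nd .lf 524292 557189 .lf) 524293 557189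
    .lf))) 524544 525089 (.nd (.nd (.nd (.nd .lf 524545 525089 .lf) 524548 525700 .lf) 524549 525061
    (.nd (.nd .lf 540672 639008 .lf) 540673 606225 .lf)) 540674 17318018 (.nd (.nd (.nd .lf 540675
    540803 .lf) 540928 574720 .lf) 540929 541057 (.nd .lf 655360 689156 .lf))))) 655362 4849674 (.nd
    (.nd (.nd (.nd (.nd (.nd .lf 655364 689156 .lf) 1048576 19924096 .lf) 1048577 1055233 (.nd (.nd .lf
    1048578 1118274 .lf) 1179648 18023424 .lf)) 1179649 1185793 (.nd (.nd (.nd .lf 1572864 5771266 .lf)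
    1572866 5771266 .lf) 2097152 19924096 (.nd (.nd .lf 2097153 10485801 .lf) 2097154 2101826 .lf)))
    2097156 2101524 (.nd (.nd (.nd (.nd .lf 2097157 2097925 .lf) 2097408 2101524 .lf) 2097409 2097925
    (.nd (.nd .lf 2097410 18874658 .lf) 2097412 2101524 .lf)) 2097413 2097925 (.nd (.nd (.nd .lf 2113536
    2114178 .lf) 2113538 2114178 .lf) 2113540 2114068 (.nd .lf 2228224 2228386 .lf)))) 2228226 2228386
    (.nd (.nd (.nd (.nd (.nd .lf 3145728 19924096 .lf) 3276800 3276960 .lf) 8388608 8650771 (.nd (.nd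
    .lf 8388609 8650771 .lf) 8388610 8650771 .lf)) 8388611 8650771 (.nd (.nd (.nd .lf 8388612 8409108
    .lf) 8388864 8392978 .lf) 8388866 8392978 (.nd .lf 8388868 8389908 .lf))) 8404992 8669696 (.nd (.nd
    (.nd (.nd .lf 8404996 8409108 .lf) 8519680 12716096 .lf) 8519936 8526080 (.nd (.nd .lf 8912896
    9969672 .lf) 9043968 13238336 .lf)) 9437184 13639712 (.nd (.nd (.nd .lf 9961472 9969672 .lf)
    10485760 10485801 .lf) 10485761 10485801 (.nd .lf 11534336 11542560 .lf)))))

theorem c1b : chkCells 25 ⟨4268032, 12206343, 17080056, false, true, false⟩ 12206343 facT t1b = true := by decide +kernel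

/-- the remaining graph -/
def o1b : List (ℕ × ℕ) :=
    [(5, 1), (16385, 1), (4, 5), (16384, 16385), (16388, 4)]

/-- the collapse -/
def v1b : List ℕ :=
    [14, 14, 0, 2, 21, 2, 2, 17, 19, 8, 21, 23, 21, 21, 17, 1, 8, 0, 14, 14, 1, 19, 14, 2, 21, 0, 0, 0,
    14, 14, 2, 0, 14, 0, 21, 0, 14, 0, 21, 14, 21, 0]

/-- all cells in the order of the collapse -/
def l1b : List ℕ :=
    [524291, 540675, 131329, 147713, 540928, 540929, 524545, 524549, 261, 2097413, 524544, 524548,
    8404992, 8404996, 1048577, 1179649, 1048578, 1572866, 8388612, 8388868, 260, 2097412, 1572864,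
    9961472, 9437184, 11534336, 1179648, 3276800, 8912896, 9043968, 2228224, 2228226, 8519680, 8519936,
    10485760, 10485761, 131073, 147457, 131328, 147712, 8388864, 8388866, 131074, 655362, 524290,
    540674, 655360, 655364, 258, 2097410, 540672, 540673, 8388610, 8388611, 524292, 524293, 131076,
    147460, 2097154, 2113538, 2113536, 2113540, 2097156, 2097157, 3, 16387, 16640, 16641, 257, 2097409,
    524288, 524289, 2, 16386, 8388608, 8388609, 1048576, 3145728, 131072, 147456, 256, 2097408, 2097152,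
    2097153, 1, 5, 16385, 4, 16384, 16388]

theorem k1b : collapseOK 25 1 1 1 o1b v1b l1b t1b = true := by
  decide +kernel

end Pool.Agent.TH640.Data
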