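import Pool.Agent.TH640.Cells
import Pool.Agent.TH640.Data.Fac

/-!
Certificate data (generated).
-/

set_option maxRecDepth 100000

namespace Pool.Agent.TH640.Data

open Pool.Agent.TH640

/-- moves for the link of 0 -/
def mv0 : List (List ℕ × List ℕ) :=
    [([0], [4, 14, 16, 19]), ([0, 1], [4, 16, 19]), ([0, 15], [1, 16, 19]), ([0, 5], [15, 16, 19]), ([0,
    9], [5, 15, 19]), ([0, 5, 14], [16, 19]), ([0, 23], [1, 15, 16]), ([0, 2], [9, 15, 19]), ([0, 3],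
    [5, 9, 15]), ([0, 8], [5, 14, 19]), ([0, 21], [3, 5, 9]), ([0, 1, 14], [4, 19]), ([0, 7], [2, 15,
    19]), ([0, 4, 5], [14, 16]), ([0, 6], [5, 9, 21]), ([0, 8, 9], [5, 19]), ([0, 12], [6, 9, 21]), ([0,
    18], [1, 15, 23]), ([0, 3, 16], [5, 15]), ([0, 20], [6, 9, 12]), ([0, 11], [6, 9, 20]), ([0, 3, 23],
    [15, 16]), ([0, 6, 8], [5, 9]), ([0, 1, 7], [15, 19]), ([0, 6, 14], [5, 8]), ([0, 4, 6], [5, 14]),
    ([0, 7, 14], [1, 19]), ([0, 11, 12], [9, 20]), ([0, 2, 8], [9, 19]), ([0, 8, 11], [6, 9]), ([0, 15,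
    21], [3, 9]), ([0, 21, 23], [3, 15]), ([0, 17], [6, 8, 14]), ([0, 5, 23], [3, 16]), ([0, 8, 12], [9,
    11]), ([0, 7, 8], [2, 19]), ([0, 4, 17], [6, 14]), ([0, 11, 17], [6, 8]), ([0, 2, 21], [9, 15]),
    ([0, 8, 21], [9, 12]), ([0, 18, 21], [15, 23]), ([0, 17, 20], [6, 11]), ([0, 8, 15], [2, 7]), ([0,
    5, 21, 23], [3]), ([0, 12, 17], [8, 11]), ([0, 7, 8, 14], [19]), ([0, 14, 15], [7, 8]), ([0, 1, 14,
    15], [7]), ([0, 5, 18], [21, 23]), ([0, 4, 20], [6, 17]), ([0, 4, 23], [1, 16]), ([0, 6, 18], [5,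
    21]), ([0, 4, 18], [1, 23]), ([0, 14, 18], [1, 15]), ([0, 8, 18], [14, 15]), ([0, 2, 8, 21], [9]),
    ([0, 12, 17, 20], [11]), ([0, 17, 18], [8, 14]), ([0, 4, 14, 18], [1]), ([0, 12, 18], [8, 17]), ([0,
    18, 20], [12, 17]), ([0, 4, 17, 18], [14]), ([0, 4, 18, 20], [17]), ([0, 8, 15, 21], [2]), ([0, 8,
    18, 21], [15]), ([0, 4, 5, 23], [16]), ([0, 12, 18, 21], [8]), ([0, 4, 5, 18], [23]), ([0, 4, 6,
    18], [5]), ([0, 6, 12, 18], [21]), ([0, 6, 18, 20], [4])]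

theorem lk0 : linkOK 25 3 0 [0, 6, 12, 18, 20] mv0 facT = true := by decide +kernel

/-- moves for the link of 1 -/
def mv1 : List (List ℕ × List ℕ) :=
    [([1], [3, 10, 17, 22]), ([1, 12], [3, 10, 22]), ([1, 19], [3, 17, 22]), ([1, 24], [10, 17, 22]),
    ([1, 20], [3, 19, 22]), ([1, 11], [3, 10, 12]), ([1, 10, 19], [3, 17]), ([1, 19, 24], [17, 22]),
    ([1, 21], [10, 17, 24]), ([1, 5], [17, 21, 24]), ([1, 7], [10, 17, 21]), ([1, 5, 7], [17, 21]), ([1,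
    7, 24], [5, 17]), ([1, 9], [5, 7, 21]), ([1, 15], [7, 10, 17]), ([1, 7, 19], [17, 24]), ([1, 8], [5,
    21, 24]), ([1, 15, 19], [10, 17]), ([1, 12, 24], [10, 22]), ([1, 6], [5, 9, 21]), ([1, 14], [7, 10,
    15]), ([1, 12, 19], [22, 24]), ([1, 7, 15, 19], [17]), ([0, 1], [7, 15, 19]), ([1, 16], [0, 15,
    19]), ([1, 14, 21], [7, 10]), ([1, 12, 20], [19, 22]), ([0, 1, 14], [7, 15]), ([1, 6, 8], [5, 21]),
    ([1, 12, 21], [10, 24]), ([1, 9, 24], [5, 7]), ([1, 11, 19], [3, 10]), ([1, 8, 12], [21, 24]), ([1,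
    11, 20], [3, 19]), ([1, 11, 15], [10, 19]), ([1, 4], [12, 19, 24]), ([1, 14, 19], [0, 7]), ([1, 11,
    16], [15, 19]), ([1, 18], [0, 14, 15]), ([1, 12, 14], [10, 21]), ([1, 23], [0, 15, 18]), ([1, 6,
    12], [8, 21]), ([1, 11, 14], [10, 12]), ([1, 3, 12, 20], [22]), ([1, 8, 9], [5, 6]), ([1, 4, 8],
    [12, 24]), ([1, 9, 12], [6, 21]), ([1, 16, 23], [0, 15]), ([1, 8, 9, 24], [5]), ([1, 4, 9], [8,
    24]), ([1, 11, 12, 20], [3]), ([1, 9, 14], [12, 21]), ([1, 9, 11], [12, 14]), ([1, 9, 20], [11,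
    12]), ([1, 11, 14, 15], [10]), ([1, 7, 9, 14], [21]), ([1, 6, 20], [9, 12]), ([1, 6, 11], [9, 20]),
    ([1, 11, 18], [14, 15]), ([1, 14, 24], [7, 19]), ([1, 11, 23], [15, 18]), ([1, 16, 20], [11, 19]),
    ([1, 12, 16], [19, 20]), ([1, 6, 16], [12, 20]), ([1, 9, 18], [11, 14]), ([1, 4, 14], [19, 24]),
    ([1, 4, 16], [12, 19]), ([0, 1, 4], [14, 19]), ([1, 9, 14, 24], [7]), ([1, 9, 23], [11, 18]), ([0,
    1, 4, 16], [19]), ([1, 4, 23], [0, 16]), ([1, 12, 23], [4, 16]), ([1, 4, 9, 14], [24]), ([1, 6, 11,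
    16], [20]), ([1, 4, 18], [0, 14]), ([1, 6, 15], [11, 16]), ([1, 6, 23], [9, 11]), ([1, 8, 23], [6,
    9]), ([1, 4, 18, 23], [0]), ([1, 6, 15, 23], [11]), ([1, 4, 9, 18], [14]), ([1, 4, 9, 23], [18]),
    ([1, 6, 16, 23], [15]), ([1, 4, 8, 23], [9]), ([1, 6, 12, 23], [16]), ([1, 8, 12, 23], [4])]

theorem lk1 : linkOK 25 3 1 [1, 6, 8, 12, 23] mv1 facT = true := by decide +kernel

/-- moves for the link of 2 -/
def mv2 : List (List ℕ × List ℕ) :=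
    [([2], [9, 12, 14, 23]), ([2, 4], [12, 14, 23]), ([2, 8], [9, 12, 23]), ([2, 10], [8, 9, 23]), ([2,
    18], [9, 14, 23]), ([2, 5], [4, 14, 23]), ([2, 19], [8, 9, 10]), ([0, 2], [8, 9, 19]), ([2, 21], [4,
    12, 14]), ([2, 5, 18], [14, 23]), ([2, 7], [0, 8, 19]), ([2, 10, 18], [9, 23]), ([2, 7, 10], [8,
    19]), ([2, 15], [9, 10, 19]), ([2, 6], [4, 5, 14]), ([2, 17], [4, 6, 14]), ([2, 4, 18], [5, 23]),
    ([0, 2, 15], [9, 19]), ([2, 7, 15], [0, 19]), ([2, 4, 8], [12, 23]), ([2, 6, 18], [5, 14]), ([2, 8,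
    15], [0, 7]), ([2, 8, 21], [4, 12]), ([2, 9, 21], [8, 12]), ([0, 2, 21], [8, 9]), ([2, 4, 10], [8,
    23]), ([2, 4, 7], [8, 10]), ([2, 15, 21], [0, 8]), ([2, 4, 15], [8, 21]), ([2, 9, 14, 21], [12]),
    ([2, 4, 7, 15], [8]), ([2, 4, 10, 18], [23]), ([2, 17, 18], [6, 14]), ([2, 4, 6, 18], [5]), ([2, 9,
    17], [14, 18]), ([2, 10, 17], [9, 18]), ([2, 4, 9], [14, 17]), ([2, 4, 9, 21], [14]), ([2, 6, 10],
    [4, 18]), ([2, 15, 17], [9, 10]), ([2, 6, 10, 17], [18]), ([2, 17, 19], [10, 15]), ([2, 6, 19], [10,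
    17]), ([2, 6, 7], [4, 10]), ([2, 9, 15, 21], [0]), ([2, 7, 17], [15, 19]), ([2, 6, 7, 19], [10]),
    ([2, 6, 7, 17], [19]), ([2, 4, 9, 15], [21]), ([2, 4, 15, 17], [9]), ([2, 4, 7, 17], [6])]

theorem lk2 : linkOK 25 3 2 [2, 4, 7, 15, 17] mv2 facT = true := by decide +kernel

/-- moves for the link of 3 -/
def mv3 : List (List ℕ × List ℕ) :=
    [([3], [1, 12, 20, 22]), ([3, 5], [12, 20, 22]), ([3, 11], [1, 12, 20]), ([3, 13], [5, 12, 22]),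
    ([3, 5, 11], [12, 20]), ([3, 19], [1, 20, 22]), ([3, 10], [1, 11, 12]), ([3, 24], [5, 11, 20]), ([3,
    10, 22], [1, 12]), ([3, 23], [19, 20, 22]), ([3, 11, 13], [5, 12]), ([3, 11, 19], [1, 20]), ([3,
    17], [19, 22, 23]), ([3, 7], [5, 20, 24]), ([3, 21], [5, 7, 20]), ([3, 5, 23], [20, 22]), ([1, 3,
    17], [19, 22]), ([3, 10, 13], [12, 22]), ([3, 21, 23], [5, 20]), ([3, 13, 24], [5, 11]), ([3, 21,
    24], [7, 20]), ([3, 13, 20], [11, 24]), ([3, 15], [5, 13, 24]), ([3, 9], [5, 15, 24]), ([3, 16], [5,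
    22, 23]), ([3, 6], [10, 13, 22]), ([3, 15, 22], [5, 13]), ([3, 10, 19], [1, 11]), ([3, 10, 17], [1,
    22]), ([3, 6, 15], [13, 22]), ([3, 13, 21], [20, 24]), ([0, 3], [5, 16, 23]), ([3, 13, 19], [11,
    20]), ([3, 7, 9], [5, 24]), ([3, 16, 17], [22, 23]), ([3, 15, 16], [5, 22]), ([0, 3, 15], [5, 16]),
    ([3, 6, 16], [15, 22]), ([3, 13, 23], [19, 20]), ([3, 12, 19], [11, 13]), ([3, 15, 21], [13, 24]),
    ([3, 9, 21], [7, 24]), ([3, 15, 23], [0, 16]), ([3, 10, 16], [17, 22]), ([3, 13, 21, 23], [20]),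
    ([3, 6, 23], [15, 16]), ([3, 10, 12, 19], [11]), ([3, 6, 10, 16], [22]), ([3, 6, 17], [16, 23]),
    ([3, 5, 9, 21], [7]), ([3, 6, 10, 17], [16]), ([3, 6, 19], [17, 23]), ([3, 10, 13, 19], [12]), ([0,
    3, 9], [5, 15]), ([3, 9, 15, 21], [24]), ([0, 3, 21], [5, 9]), ([0, 3, 15, 21], [9]), ([3, 10, 17,
    19], [1]), ([3, 6, 10, 19], [17]), ([0, 3, 21, 23], [5]), ([3, 15, 21, 23], [0]), ([3, 6, 13, 19],
    [10]), ([3, 6, 13, 23], [19]), ([3, 13, 15, 23], [6])]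

theorem lk3 : linkOK 25 3 3 [3, 13, 15, 21, 23] mv3 facT = true := by decide +kernel

/-- moves for the link of 4 -/
def mv4 : List (List ℕ × List ℕ) :=
    [([4], [2, 8, 12, 23]), ([1, 4], [8, 12, 23]), ([4, 24], [1, 8, 12]), ([4, 14], [2, 12, 23]), ([4,
    21], [2, 8, 12]), ([4, 19], [1, 12, 24]), ([4, 16], [1, 12, 23]), ([4, 10], [2, 8, 23]), ([0, 4],
    [1, 16, 23]), ([4, 14, 21], [2, 12]), ([4, 9], [1, 8, 24]), ([4, 7], [2, 8, 10]), ([4, 16, 19], [1,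
    12]), ([4, 9, 23], [1, 8]), ([4, 21, 24], [8, 12]), ([4, 14, 16], [12, 23]), ([4, 9, 10], [8, 23]),
    ([4, 18], [0, 1, 23]), ([4, 9, 18], [1, 23]), ([4, 15], [8, 9, 24]), ([4, 6], [2, 7, 10]), ([4, 10,
    18], [9, 23]), ([4, 5], [0, 18, 23]), ([4, 17], [9, 10, 18]), ([2, 4, 18], [10, 23]), ([0, 4, 19],
    [1, 16]), ([4, 15, 21], [8, 24]), ([4, 5, 16], [0, 23]), ([4, 9, 21], [15, 24]), ([4, 14, 19], [12,
    16]), ([4, 5, 14], [16, 23]), ([2, 4, 15], [8, 21]), ([2, 4, 5], [14, 23]), ([4, 7, 15], [2, 8]),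
    ([4, 14, 24], [12, 19]), ([2, 4, 9], [15, 21]), ([4, 20], [10, 17, 18]), ([1, 4, 14], [19, 24]),
    ([4, 10, 15], [8, 9]), ([4, 15, 17], [9, 10]), ([4, 7, 10, 15], [8]), ([0, 4, 14], [1, 19]), ([0, 4,
    14, 16], [19]), ([4, 14, 21, 24], [12]), ([4, 9, 14], [21, 24]), ([4, 6, 18], [2, 10]), ([4, 14,
    18], [0, 1]), ([2, 4, 5, 18], [23]), ([0, 4, 5, 14], [16]), ([2, 4, 9, 14], [21]), ([4, 7, 17], [10,
    15]), ([4, 6, 20], [10, 18]), ([4, 7, 20], [10, 17]), ([2, 4, 17], [9, 15]), ([4, 5, 6], [2, 18]),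
    ([4, 6, 7, 20], [10]), ([4, 6, 14], [2, 5]), ([1, 4, 9, 14], [24]), ([4, 6, 17], [7, 20]), ([4, 9,
    14, 18], [1]), ([0, 4, 6], [5, 18]), ([0, 4, 20], [6, 18]), ([0, 4, 17], [18, 20]), ([0, 4, 6, 17],
    [20]), ([4, 14, 17], [0, 18]), ([4, 9, 14, 17], [18]), ([2, 4, 7, 17], [15]), ([2, 4, 6, 17], [7]),
    ([2, 4, 14, 17], [9]), ([0, 4, 6, 14], [5]), ([4, 6, 14, 17], [2])]

theorem lk4 : linkOK 25 3 4 [0, 4, 6, 14, 17] mv4 facT = true := by decide +kernel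


end Pool.Agent.TH640.Data
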