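import Pool.Agent.TH640.Cells
import Pool.Agent.TH640.Data.Fac

/-!
Certificate data (generated).
-/

set_option maxRecDepth 100000

namespace Pool.Agent.TH640.Data

open Pool.Agent.TH640

/-- moves for the link of 5 -/
def mv5 : List (List ℕ × List ℕ) :=
    [([5], [13, 15, 21, 24]), ([3, 5], [13, 15, 24]), ([5, 17], [13, 21, 24]), ([5, 22], [3, 13, 15]),
    ([5, 23], [13, 15, 21]), ([5, 8], [15, 21, 24]), ([5, 11], [13, 17, 24]), ([1, 5], [17, 21, 24]),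
    ([5, 18], [8, 15, 21]), ([5, 16], [3, 15, 22]), ([5, 20], [13, 21, 23]), ([5, 14], [8, 15, 18]),
    ([5, 6], [8, 18, 21]), ([5, 22, 23], [13, 15]), ([5, 18, 23], [15, 21]), ([5, 14, 23], [15, 18]),
    ([5, 9], [3, 15, 24]), ([2, 5], [14, 18, 23]), ([5, 12], [11, 13, 17]), ([5, 20, 22], [13, 23]),
    ([5, 17, 20], [13, 21]), ([0, 5], [3, 15, 16]), ([1, 5, 8], [21, 24]), ([5, 12, 20], [13, 17]), ([5,
    11, 20], [12, 17]), ([0, 5, 9], [3, 15]), ([4, 5], [2, 18, 23]), ([4, 5, 14], [2, 23]), ([5, 14,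
    22], [15, 23]), ([5, 12, 22], [13, 20]), ([5, 7], [11, 17, 20]), ([5, 7, 21], [17, 20]), ([5, 19],
    [0, 9, 15]), ([5, 8, 9], [15, 24]), ([1, 5, 9], [8, 24]), ([3, 5, 12], [13, 22]), ([5, 7, 24], [11,
    17]), ([5, 16, 19], [0, 15]), ([1, 5, 7], [17, 24]), ([5, 7, 9], [1, 24]), ([3, 5, 20], [12, 22]),
    ([1, 5, 7, 21], [17]), ([3, 5, 23], [20, 22]), ([5, 9, 21], [1, 7]), ([5, 14, 16], [15, 22]), ([5,
    20, 24], [7, 11]), ([5, 14, 19], [15, 16]), ([5, 6, 14], [8, 18]), ([3, 5, 21], [20, 23]), ([3, 5,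
    11], [13, 24]), ([3, 5, 7], [20, 21]), ([0, 5, 14], [16, 19]), ([1, 5, 6], [8, 21]), ([3, 5, 11,
    12], [13]), ([5, 16, 23], [3, 22]), ([5, 6, 9], [1, 21]), ([5, 6, 8, 9], [1]), ([3, 5, 11, 20],
    [12]), ([5, 14, 16, 23], [22]), ([4, 5, 16], [14, 23]), ([2, 5, 6], [14, 18]), ([5, 8, 19], [14,
    15]), ([4, 5, 6], [2, 14]), ([0, 5, 23], [3, 16]), ([4, 5, 6, 18], [2]), ([0, 4, 5], [16, 23]), ([0,
    5, 21], [3, 23]), ([0, 4, 5, 14], [16]), ([0, 5, 18], [21, 23]), ([0, 4, 5, 18], [23]), ([3, 5, 20,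
    24], [11]), ([0, 5, 6], [4, 14]), ([5, 8, 9, 19], [15]), ([0, 5, 8], [6, 14]), ([0, 5, 6, 18], [4]),
    ([0, 5, 6, 21], [18]), ([3, 5, 7, 24], [20]), ([0, 5, 8, 19], [14]), ([0, 5, 8, 9], [19]), ([0, 5,
    6, 9], [8]), ([0, 5, 9, 21], [6]), ([3, 5, 9, 21], [0]), ([3, 5, 7, 9], [24])]

theorem lk5 : linkOK 25 3 5 [3, 5, 7, 9, 21] mv5 facT = true := by decide +kernel

/-- moves for the link of 6 -/
def mv6 : List (List ℕ × List ℕ) :=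
    [([6], [1, 11, 15, 16]), ([6, 20], [1, 11, 16]), ([6, 23], [1, 11, 15]), ([6, 22], [11, 15, 23]),
    ([6, 16, 22], [11, 15]), ([6, 24], [11, 16, 22]), ([6, 10], [16, 22, 24]), ([3, 6], [10, 16, 22]),
    ([6, 20, 24], [11, 16]), ([6, 9], [1, 11, 20]), ([6, 13], [3, 10, 22]), ([6, 10, 20], [16, 24]),
    ([6, 19], [3, 10, 13]), ([6, 17], [3, 10, 19]), ([3, 6, 15], [16, 22]), ([6, 12], [1, 16, 20]), ([6,
    13, 15], [3, 22]), ([6, 9, 23], [1, 11]), ([6, 7], [10, 20, 24]), ([6, 13, 23], [15, 22]), ([6, 19,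
    22], [10, 13]), ([6, 18], [10, 16, 20]), ([6, 9, 12], [1, 20]), ([6, 19, 23], [13, 22]), ([6, 16,
    17], [3, 10]), ([6, 21], [1, 9, 12]), ([0, 6], [9, 12, 21]), ([2, 6], [10, 17, 19]), ([3, 6, 23],
    [13, 19]), ([6, 8], [1, 12, 21]), ([4, 6], [7, 10, 20]), ([6, 7, 11], [20, 24]), ([3, 6, 15, 23],
    [13]), ([0, 6, 20], [9, 12]), ([6, 17, 23], [3, 19]), ([6, 16, 23], [3, 15]), ([6, 16, 17, 23],
    [3]), ([6, 19, 24], [10, 22]), ([4, 6, 18], [10, 20]), ([6, 7, 19], [10, 24]), ([6, 12, 18], [16,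
    20]), ([6, 17, 18], [10, 16]), ([2, 6, 18], [10, 17]), ([5, 6], [1, 9, 21]), ([1, 6, 16, 23], [15]),
    ([0, 6, 11], [9, 20]), ([6, 14], [2, 17, 18]), ([2, 6, 7], [10, 19]), ([6, 7, 17], [2, 19]), ([6,
    17, 22], [19, 23]), ([0, 6, 18], [12, 20]), ([6, 17, 24], [19, 22]), ([6, 11, 17], [22, 23]), ([6,
    7, 17, 24], [19]), ([0, 5, 6], [9, 21]), ([5, 6, 8], [1, 21]), ([6, 11, 17, 24], [22]), ([6, 8, 9],
    [1, 5]), ([2, 4, 6], [10, 18]), ([0, 4, 6], [18, 20]), ([6, 18, 21], [0, 12]), ([6, 8, 18], [12,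
    21]), ([6, 12, 23], [1, 16]), ([6, 8, 23], [1, 9]), ([6, 12, 17], [16, 18]), ([0, 6, 8], [5, 9]),
    ([6, 8, 17], [12, 18]), ([5, 6, 18], [8, 21]), ([0, 5, 6, 18], [21]), ([6, 8, 14], [17, 18]), ([5,
    6, 14], [8, 18]), ([6, 8, 12, 23], [1]), ([6, 8, 11], [9, 23]), ([4, 5, 6], [0, 18]), ([0, 6, 14],
    [5, 8]), ([6, 12, 17, 23], [16]), ([0, 6, 17], [8, 14]), ([2, 5, 6], [4, 18]), ([2, 4, 6, 7], [10]),
    ([6, 8, 17, 23], [12]), ([4, 6, 17], [2, 7]), ([0, 6, 8, 11], [9]), ([6, 8, 11, 17], [23]), ([2, 5,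
    6, 14], [18]), ([4, 6, 14], [2, 5]), ([0, 6, 11, 17], [8]), ([6, 17, 20], [0, 11]), ([0, 4, 6, 14],
    [5]), ([6, 7, 11, 17], [24]), ([6, 7, 17, 20], [11]), ([4, 6, 17, 20], [7]), ([4, 6, 14, 17], [2]),
    ([0, 4, 6, 17], [14])]

theorem lk6 : linkOK 25 3 6 [0, 4, 6, 17, 20] mv6 facT = true := by decide +kernel

/-- moves for the link of 7 -/
def mv7 : List (List ℕ × List ℕ) :=
    [([7], [1, 10, 17, 21]), ([7, 20], [10, 17, 21]), ([7, 24], [10, 20, 21]), ([7, 15], [1, 10, 17]),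
    ([5, 7], [17, 20, 21]), ([6, 7], [10, 20, 24]), ([7, 19], [1, 15, 17]), ([7, 14], [1, 10, 21]), ([2,
    7], [15, 17, 19]), ([7, 14, 24], [10, 21]), ([4, 7], [6, 10, 20]), ([7, 9], [14, 21, 24]), ([7, 14,
    15], [1, 10]), ([0, 7], [1, 15, 19]), ([1, 7, 9], [14, 21]), ([4, 7, 17], [10, 20]), ([3, 7], [20,
    21, 24]), ([0, 2, 7], [15, 19]), ([6, 7, 17], [4, 20]), ([7, 8], [0, 2, 19]), ([0, 7, 14], [1, 15]),
    ([1, 7, 24], [9, 14]), ([1, 5, 7], [17, 21]), ([5, 7, 9], [1, 21]), ([3, 5, 7], [20, 21]), ([7, 11],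
    [6, 17, 20]), ([3, 7, 9], [21, 24]), ([5, 7, 11], [17, 20]), ([5, 7, 24], [3, 20]), ([7, 11, 24],
    [5, 20]), ([3, 5, 7, 9], [21]), ([6, 7, 11, 24], [20]), ([5, 7, 9, 24], [3]), ([7, 17, 24], [5,
    11]), ([1, 5, 7, 24], [9]), ([6, 7, 17, 24], [11]), ([7, 8, 15], [0, 2]), ([7, 8, 14], [0, 15]),
    ([7, 14, 19], [0, 8]), ([1, 7, 17, 24], [5]), ([7, 19, 24], [1, 17]), ([1, 7, 14, 19], [0]), ([4, 7,
    15], [10, 17]), ([6, 7, 19], [17, 24]), ([2, 4, 7], [15, 17]), ([7, 14, 19, 24], [1]), ([7, 8, 10],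
    [14, 15]), ([7, 10, 19], [8, 14]), ([4, 7, 8], [2, 15]), ([7, 10, 19, 24], [14]), ([2, 6, 7], [4,
    17]), ([6, 7, 10, 19], [24]), ([2, 7, 10], [8, 19]), ([4, 7, 8, 10], [15]), ([2, 6, 7, 19], [17]),
    ([2, 6, 7, 10], [19]), ([2, 4, 7, 10], [8])]

theorem lk7 : linkOK 25 3 7 [2, 4, 6, 7, 10] mv7 facT = true := by decide +kernel

/-- moves for the link of 8 -/
def mv8 : List (List ℕ × List ℕ) :=
    [([8], [0, 11, 12, 17]), ([8, 23], [11, 12, 17]), ([8, 18], [0, 12, 17]), ([8, 9], [11, 12, 23]),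
    ([8, 21], [0, 12, 18]), ([0, 8, 9], [11, 12]), ([6, 8], [9, 11, 23]), ([8, 15], [0, 18, 21]), ([2,
    8], [9, 12, 23]), ([8, 9, 21], [0, 12]), ([8, 14], [0, 17, 18]), ([5, 8], [15, 18, 21]), ([4, 8],
    [2, 12, 23]), ([6, 8, 17], [11, 23]), ([0, 6, 8], [11, 17]), ([8, 24], [5, 15, 21]), ([1, 8], [4,
    12, 23]), ([6, 8, 14], [0, 17]), ([8, 14, 15], [0, 18]), ([7, 8], [0, 14, 15]), ([6, 8, 12], [17,
    23]), ([0, 6, 8, 9], [11]), ([8, 10], [2, 9, 23]), ([8, 19], [2, 9, 10]), ([6, 8, 18], [12, 17]),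
    ([4, 8, 10], [2, 23]), ([4, 8, 9], [10, 23]), ([5, 8, 14], [15, 18]), ([6, 8, 21], [12, 18]), ([1,
    8, 9], [4, 23]), ([1, 6, 8], [12, 23]), ([5, 6, 8], [18, 21]), ([6, 8, 14, 18], [17]), ([5, 6, 8,
    14], [18]), ([0, 5, 8], [6, 14]), ([1, 8, 21], [6, 12]), ([1, 5, 8], [6, 21]), ([5, 8, 9], [0, 6]),
    ([1, 6, 8, 9], [23]), ([2, 8, 21], [9, 12]), ([1, 8, 24], [5, 21]), ([1, 5, 8, 9], [6]), ([4, 8,
    21], [2, 12]), ([8, 9, 24], [1, 5]), ([0, 2, 8], [9, 21]), ([2, 8, 15], [0, 21]), ([8, 9, 15], [5,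
    24]), ([8, 12, 24], [1, 21]), ([2, 7, 8], [0, 15]), ([0, 8, 19], [2, 9]), ([5, 8, 19], [0, 9]), ([8,
    14, 19], [0, 5]), ([7, 8, 19], [0, 2]), ([4, 8, 15], [2, 21]), ([8, 15, 19], [5, 9]), ([7, 8, 14,
    19], [0]), ([4, 7, 8], [2, 15]), ([4, 8, 24], [1, 12]), ([7, 8, 10], [2, 4]), ([8, 14, 15, 19],
    [5]), ([7, 8, 10, 19], [2]), ([4, 8, 9, 24], [1]), ([8, 10, 15], [9, 19]), ([8, 10, 14], [7, 19]),
    ([8, 10, 14, 15], [19]), ([7, 8, 10, 15], [14]), ([4, 8, 21, 24], [12]), ([4, 8, 15, 24], [21]),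
    ([4, 8, 10, 15], [7]), ([4, 8, 9, 15], [10])]

theorem lk8 : linkOK 25 3 8 [4, 8, 9, 15, 24] mv8 facT = true := by decide +kernel

/-- moves for the link of 9 -/
def mv9 : List (List ℕ × List ℕ) :=
    [([9], [8, 11, 12, 23]), ([9, 14], [11, 12, 23]), ([6, 9], [8, 11, 23]), ([9, 18], [11, 14, 23]),
    ([0, 9], [6, 8, 11]), ([1, 9], [11, 18, 23]), ([4, 9], [1, 18, 23]), ([9, 20], [0, 6, 11]), ([2, 9],
    [14, 18, 23]), ([1, 9, 14], [11, 18]), ([0, 9, 12], [8, 11]), ([1, 6, 9], [11, 23]), ([1, 9, 12],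
    [11, 14]), ([9, 21], [0, 8, 12]), ([2, 9, 12], [14, 23]), ([2, 8, 9], [12, 23]), ([2, 9, 21], [8,
    12]), ([9, 10], [2, 8, 23]), ([4, 9, 14], [1, 18]), ([9, 19], [2, 8, 10]), ([9, 10, 18], [2, 23]),
    ([4, 9, 10], [18, 23]), ([5, 9], [0, 6, 8]), ([9, 17], [4, 14, 18]), ([9, 15], [8, 10, 19]), ([9,
    24], [1, 4, 14]), ([1, 8, 9], [6, 23]), ([7, 9], [1, 14, 24]), ([1, 5, 9], [6, 8]), ([2, 9, 15],
    [10, 19]), ([9, 10, 17], [4, 18]), ([9, 12, 20], [0, 11]), ([9, 14, 21], [2, 12]), ([1, 9, 21], [12,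
    14]), ([4, 8, 9], [10, 23]), ([4, 9, 15], [8, 10]), ([2, 9, 17], [10, 18]), ([1, 9, 20], [6, 11]),
    ([9, 15, 17], [2, 10]), ([6, 9, 12], [0, 20]), ([6, 9, 21], [0, 12]), ([4, 9, 15, 17], [10]), ([2,
    4, 9], [15, 17]), ([1, 4, 8, 9], [23]), ([7, 9, 21], [1, 14]), ([2, 9, 14, 17], [18]), ([0, 2, 9],
    [8, 21]), ([9, 21, 24], [7, 14]), ([5, 9, 21], [0, 6]), ([3, 9], [0, 5, 21]), ([0, 9, 19], [2, 8]),
    ([0, 9, 15], [2, 19]), ([2, 4, 9, 14], [17]), ([9, 15, 21], [0, 2]), ([5, 9, 19], [0, 8]), ([5, 9,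
    15], [0, 19]), ([8, 9, 24], [1, 4]), ([5, 9, 24], [1, 8]), ([5, 7, 9], [1, 24]), ([4, 9, 21], [14,
    24]), ([9, 15, 24], [4, 8]), ([2, 4, 9, 21], [14]), ([4, 9, 15, 21], [2]), ([3, 9, 15], [0, 5]),
    ([1, 9, 12, 20], [11]), ([5, 8, 9, 15], [19]), ([5, 9, 15, 24], [8]), ([3, 9, 15, 21], [0]), ([9,
    15, 21, 24], [4]), ([3, 9, 24], [5, 15]), ([3, 7, 9], [5, 24]), ([3, 9, 21, 24], [15]), ([3, 7, 9,
    21], [24]), ([5, 7, 9, 21], [3]), ([1, 5, 9, 21], [7]), ([1, 6, 9, 12], [20]), ([1, 6, 9, 21],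
    [12])]

theorem lk9 : linkOK 25 3 9 [1, 5, 6, 9, 21] mv9 facT = true := by decide +kernel


end Pool.Agent.TH640.Data
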