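import Pool.Agent.TH640.Cells
import Pool.Agent.TH640.Data.Fac

/-!
Certificate data (generated).
-/

set_option maxRecDepth 100000

namespace Pool.Agent.TH640.Data

open Pool.Agent.TH640

/-- moves for the link of 10 -/
def mv10 : List (List ℕ × List ℕ) :=
    [([10], [3, 6, 17, 19]), ([10, 16], [3, 6, 17]), ([2, 10], [6, 17, 19]), ([1, 10], [3, 17, 19]),
    ([10, 11], [1, 3, 19]), ([10, 22], [1, 3, 17]), ([10, 18], [6, 16, 17]), ([10, 15], [1, 17, 19]),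
    ([10, 16, 22], [3, 17]), ([10, 20], [6, 16, 18]), ([10, 12], [3, 11, 19]), ([10, 13], [3, 12, 19]),
    ([10, 24], [6, 16, 20]), ([1, 10, 12], [3, 11]), ([7, 10], [2, 6, 19]), ([10, 12, 22], [1, 3]),
    ([10, 14], [1, 11, 12]), ([10, 17, 20], [16, 18]), ([10, 14, 19], [11, 12]), ([10, 13, 22], [3,
    12]), ([6, 10, 22], [3, 16]), ([10, 22, 24], [6, 16]), ([4, 10], [6, 18, 20]), ([2, 10, 18], [6,
    17]), ([10, 21], [1, 12, 14]), ([6, 10, 13], [3, 22]), ([9, 10], [2, 17, 18]), ([10, 11, 15], [1,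
    19]), ([4, 10, 17], [18, 20]), ([10, 19, 22], [12, 13]), ([8, 10], [2, 7, 19]), ([6, 10, 13, 19],
    [3]), ([4, 9, 10], [17, 18]), ([10, 17, 24], [16, 20]), ([10, 23], [4, 9, 18]), ([2, 4, 10], [6,
    18]), ([10, 14, 15], [11, 19]), ([2, 10, 15], [17, 19]), ([2, 10, 23], [9, 18]), ([10, 17, 22, 24],
    [16]), ([2, 4, 10, 23], [18]), ([9, 10, 15], [2, 17]), ([1, 10, 14, 15], [11]), ([1, 10, 24], [17,
    22]), ([6, 10, 19, 22], [13]), ([4, 10, 15], [9, 17]), ([9, 10, 19], [2, 15]), ([10, 19, 24], [6,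
    22]), ([4, 7, 10], [2, 6]), ([8, 9, 10], [2, 19]), ([10, 12, 24], [1, 22]), ([7, 10, 20], [4, 6]),
    ([4, 8, 10], [2, 7]), ([7, 10, 24], [6, 19]), ([8, 10, 23], [2, 9]), ([10, 21, 24], [1, 12]), ([7,
    10, 17], [4, 20]), ([10, 12, 19, 24], [22]), ([7, 10, 15], [4, 17]), ([1, 7, 10], [15, 17]), ([7,
    10, 20, 24], [6]), ([8, 10, 15], [9, 19]), ([8, 10, 14], [15, 19]), ([4, 8, 10, 23], [2]), ([10, 17,
    21], [1, 24]), ([10, 14, 24], [12, 19]), ([10, 14, 21, 24], [12]), ([7, 10, 14], [8, 19]), ([10, 20,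
    21], [17, 24]), ([7, 10, 21], [17, 20]), ([4, 8, 9, 10], [23]), ([7, 10, 14, 24], [19]), ([7, 10,
    21, 24], [20]), ([4, 8, 10, 15], [9]), ([1, 7, 10, 21], [17]), ([7, 8, 10, 15], [4]), ([7, 10, 14,
    15], [8]), ([1, 7, 10, 14], [15]), ([7, 10, 14, 21], [24])]

theorem lk10 : linkOK 25 3 10 [1, 7, 10, 14, 21] mv10 facT = true := by decide +kernel

/-- moves for the link of 11 -/
def mv11 : List (List ℕ × List ℕ) :=
    [([11], [0, 8, 9, 12]), ([11, 20], [0, 9, 12]), ([6, 11], [0, 8, 9]), ([1, 11], [9, 12, 20]), ([11,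
    23], [8, 9, 12]), ([3, 11], [1, 12, 20]), ([11, 17], [0, 12, 20]), ([6, 11, 23], [8, 9]), ([11, 14],
    [9, 12, 23]), ([6, 11, 20], [0, 9]), ([1, 6, 11], [9, 20]), ([6, 11, 17], [0, 20]), ([11, 19], [1,
    3, 20]), ([7, 11], [6, 17, 20]), ([5, 11], [12, 17, 20]), ([10, 11], [1, 3, 12]), ([11, 24], [6, 7,
    20]), ([11, 16], [12, 14, 23]), ([11, 13], [5, 12, 17]), ([8, 11, 17], [0, 6]), ([1, 11, 14], [9,
    12]), ([10, 11, 19], [1, 3]), ([11, 18], [1, 9, 14]), ([3, 5, 11], [12, 20]), ([8, 11, 12, 17],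
    [0]), ([11, 22], [14, 16, 23]), ([1, 11, 23], [6, 9]), ([11, 15], [1, 14, 18]), ([10, 11, 14], [1,
    12]), ([5, 7, 11], [17, 20]), ([11, 12, 19], [3, 10]), ([3, 11, 13], [5, 12]), ([11, 17, 23], [8,
    12]), ([11, 14, 19], [10, 12]), ([11, 18, 23], [9, 14]), ([11, 17, 24], [6, 7]), ([11, 13, 19], [3,
    12]), ([11, 16, 19], [12, 14]), ([11, 16, 17], [12, 23]), ([1, 11, 18, 23], [9]), ([11, 13, 16],
    [12, 17]), ([5, 11, 24], [7, 17]), ([10, 11, 15], [1, 14]), ([11, 15, 19], [1, 10]), ([11, 17, 22],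
    [16, 23]), ([5, 11, 20, 24], [7]), ([11, 13, 20], [3, 19]), ([11, 15, 23], [1, 18]), ([6, 11, 17,
    23], [8]), ([11, 13, 24], [5, 17]), ([11, 13, 16, 19], [12]), ([11, 14, 15, 23], [18]), ([11, 16,
    20], [13, 19]), ([11, 15, 22], [14, 23]), ([3, 11, 24], [5, 20]), ([1, 11, 16], [19, 20]), ([11, 15,
    16], [1, 19]), ([3, 11, 13, 24], [5]), ([11, 14, 15, 19], [10]), ([11, 13, 20, 24], [3]), ([6, 11,
    16], [1, 20]), ([6, 11, 15], [1, 23]), ([11, 16, 24], [6, 20]), ([11, 14, 15, 16], [19]), ([11, 15,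
    16, 22], [14]), ([6, 11, 22], [15, 23]), ([11, 13, 16, 24], [20]), ([6, 11, 15, 16], [1]), ([6, 11,
    17, 22], [23]), ([6, 11, 16, 22], [15]), ([11, 22, 24], [6, 17]), ([11, 16, 22, 24], [6]), ([11, 16,
    17, 24], [22])]

theorem lk11 : linkOK 25 3 11 [11, 13, 16, 17, 24] mv11 facT = true := by decide +kernel

/-- moves for the link of 12 -/
def mv12 : List (List ℕ × List ℕ) :=
    [([12], [3, 10, 11, 19]), ([12, 14], [10, 11, 19]), ([1, 12], [3, 10, 11]), ([12, 20], [1, 3, 11]),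
    ([12, 13], [3, 11, 19]), ([9, 12], [1, 11, 20]), ([1, 12, 14], [10, 11]), ([9, 12, 14], [1, 11]),
    ([10, 12, 13], [3, 19]), ([12, 16], [11, 13, 19]), ([5, 12], [3, 11, 13]), ([6, 12], [1, 9, 20]),
    ([12, 22], [3, 5, 13]), ([12, 14, 16], [11, 19]), ([10, 12, 22], [3, 13]), ([12, 19, 22], [10, 13]),
    ([12, 21], [1, 10, 14]), ([12, 23], [11, 14, 16]), ([0, 12], [9, 11, 20]), ([0, 6, 12], [9, 20]),
    ([12, 17], [0, 11, 20]), ([4, 12], [14, 16, 19]), ([12, 24], [4, 14, 19]), ([10, 12, 24], [14, 19]),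
    ([9, 12, 23], [11, 14]), ([8, 12], [0, 11, 17]), ([8, 9, 12], [0, 11]), ([12, 18], [0, 8, 17]), ([5,
    12, 20], [3, 11]), ([9, 12, 21], [1, 14]), ([6, 12, 21], [1, 9]), ([4, 12, 23], [14, 16]), ([1, 12,
    22], [3, 10]), ([12, 18, 20], [0, 17]), ([12, 20, 22], [1, 3]), ([2, 12], [4, 14, 23]), ([8, 12,
    23], [9, 11]), ([5, 12, 20, 22], [3]), ([0, 12, 21], [6, 9]), ([5, 12, 17], [11, 20]), ([12, 13,
    17], [5, 11]), ([12, 16, 17], [11, 13]), ([12, 13, 20], [5, 17]), ([12, 21, 24], [10, 14]), ([6, 12,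
    18], [0, 20]), ([12, 17, 23], [11, 16]), ([12, 18, 21], [0, 6]), ([12, 13, 20, 22], [5]), ([8, 12,
    17, 23], [11]), ([2, 9, 12], [14, 23]), ([2, 8, 12], [9, 23]), ([2, 12, 21], [9, 14]), ([8, 12, 21],
    [0, 9]), ([4, 12, 21], [2, 14]), ([4, 12, 21, 24], [14]), ([12, 22, 24], [10, 19]), ([12, 19, 20],
    [13, 22]), ([4, 8, 12], [2, 23]), ([12, 16, 20], [13, 17]), ([12, 16, 18], [17, 20]), ([1, 12, 19],
    [20, 22]), ([1, 12, 24], [10, 22]), ([2, 8, 12, 21], [9]), ([12, 16, 19, 20], [13]), ([4, 8, 12,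
    21], [2]), ([1, 12, 21, 24], [10]), ([8, 12, 18, 21], [0]), ([6, 12, 16], [18, 20]), ([6, 8, 12],
    [18, 21]), ([8, 12, 24], [4, 21]), ([6, 12, 17], [8, 18]), ([6, 12, 16, 17], [18]), ([1, 12, 19,
    24], [22]), ([6, 12, 23], [8, 17]), ([1, 8, 12], [6, 21]), ([1, 12, 16], [19, 20]), ([6, 12, 16,
    23], [17]), ([1, 6, 12, 16], [20]), ([1, 4, 12], [19, 24]), ([1, 12, 23], [6, 16]), ([1, 4, 12, 16],
    [19]), ([1, 8, 12, 24], [21]), ([1, 4, 12, 23], [16]), ([1, 8, 12, 23], [6]), ([1, 4, 8, 12], [23])]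

theorem lk12 : linkOK 25 3 12 [1, 4, 8, 12, 24] mv12 facT = true := by decide +kernel

/-- moves for the link of 13 -/
def mv13 : List (List ℕ × List ℕ) :=
    [([13], [3, 5, 11, 24]), ([13, 20], [3, 11, 24]), ([13, 19], [3, 11, 20]), ([13, 16], [11, 19, 20]),
    ([13, 21], [3, 20, 24]), ([13, 23], [3, 20, 21]), ([12, 13], [3, 5, 11]), ([13, 16, 24], [11, 20]),
    ([13, 17], [5, 11, 12]), ([12, 13, 19], [3, 11]), ([13, 17, 24], [5, 11]), ([13, 19, 23], [3, 20]),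
    ([13, 16, 17], [11, 24]), ([10, 13], [3, 12, 19]), ([13, 22], [10, 12, 19]), ([13, 15], [3, 21,
    23]), ([12, 13, 16], [11, 17]), ([3, 13, 22], [10, 12]), ([12, 13, 16, 19], [11]), ([6, 13], [3, 10,
    22]), ([12, 13, 20], [16, 19]), ([13, 20, 22], [12, 19]), ([5, 13, 22], [3, 12]), ([13, 15, 24], [3,
    21]), ([6, 13, 19], [10, 22]), ([13, 17, 20], [12, 16]), ([13, 17, 20, 24], [16]), ([5, 13, 20],
    [12, 17]), ([5, 13, 20, 22], [12]), ([5, 13, 15], [3, 24]), ([13, 22, 23], [19, 20]), ([3, 6, 13,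
    19], [10]), ([13, 17, 21], [20, 24]), ([5, 13, 21], [15, 24]), ([13, 15, 22], [3, 5]), ([6, 13, 23],
    [3, 19]), ([6, 13, 15], [3, 22]), ([5, 13, 23], [20, 22]), ([6, 13, 22, 23], [19]), ([5, 13, 17,
    21], [24]), ([6, 13, 15, 23], [3]), ([13, 15, 22, 23], [6]), ([5, 13, 20, 21], [17]), ([5, 13, 21,
    23], [20]), ([5, 13, 15, 23], [21])]

theorem lk13 : linkOK 25 3 13 [5, 13, 15, 22, 23] mv13 facT = true := by decide +kernel

/-- moves for the link of 14 -/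
def mv14 : List (List ℕ × List ℕ) :=
    [([14], [1, 7, 19, 24]), ([9, 14], [1, 7, 24]), ([14, 21], [1, 7, 9]), ([4, 14], [1, 19, 24]), ([10,
    14], [7, 19, 24]), ([8, 14], [7, 10, 19]), ([4, 9, 14], [1, 24]), ([0, 14], [1, 7, 19]), ([14, 15],
    [7, 8, 10]), ([14, 15, 19], [8, 10]), ([0, 8, 14], [7, 19]), ([14, 21, 24], [7, 9]), ([12, 14], [4,
    19, 24]), ([5, 14], [8, 15, 19]), ([0, 4, 14], [1, 19]), ([10, 14, 21], [7, 24]), ([1, 10, 14], [7,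
    21]), ([14, 16], [4, 12, 19]), ([1, 14, 15], [7, 10]), ([11, 14], [12, 16, 19]), ([14, 18], [1, 4,
    9]), ([0, 14, 15], [1, 7]), ([4, 14, 21], [9, 24]), ([2, 14], [4, 9, 21]), ([0, 14, 18], [1, 4]),
    ([12, 14, 21], [4, 24]), ([14, 23], [11, 12, 16]), ([4, 14, 23], [12, 16]), ([10, 12, 14], [19,
    24]), ([14, 17], [2, 4, 9]), ([0, 5, 14], [8, 19]), ([0, 8, 14, 15], [7]), ([14, 22], [11, 16, 23]),
    ([14, 17, 18], [4, 9]), ([2, 14, 18], [9, 17]), ([0, 14, 17], [4, 18]), ([6, 14], [0, 4, 17]), ([14,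
    15, 18], [0, 1]), ([2, 6, 14], [4, 17]), ([0, 14, 16], [4, 19]), ([8, 14, 18], [0, 15]), ([5, 14,
    16], [0, 19]), ([10, 11, 14], [12, 19]), ([6, 14, 18], [2, 17]), ([14, 15, 16], [5, 19]), ([4, 5,
    14], [0, 16]), ([8, 14, 17], [0, 18]), ([6, 8, 14], [17, 18]), ([5, 6, 14], [0, 4]), ([2, 5, 14],
    [4, 6]), ([11, 14, 15], [16, 19]), ([2, 12, 14], [4, 21]), ([5, 14, 23], [4, 16]), ([9, 12, 14], [2,
    21]), ([14, 15, 22], [11, 16]), ([10, 11, 14, 15], [19]), ([1, 12, 14], [9, 21]), ([5, 14, 18], [2,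
    6]), ([5, 14, 22], [15, 16]), ([2, 14, 23], [4, 5]), ([2, 12, 14, 23], [4]), ([10, 12, 14, 21],
    [24]), ([14, 18, 23], [2, 5]), ([0, 6, 8, 14], [17]), ([14, 15, 23], [11, 22]), ([1, 11, 14], [10,
    15]), ([9, 14, 23], [2, 12]), ([5, 14, 22, 23], [16]), ([5, 6, 8, 14], [0]), ([1, 10, 12, 14],
    [21]), ([11, 14, 18], [1, 15]), ([9, 14, 18, 23], [2]), ([9, 11, 14], [1, 18]), ([5, 8, 14, 18],
    [6]), ([5, 14, 15, 18], [8]), ([5, 14, 15, 23], [22]), ([1, 11, 12, 14], [10]), ([9, 11, 12, 14],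
    [1]), ([14, 15, 18, 23], [5]), ([9, 11, 14, 23], [12]), ([11, 14, 18, 23], [15])]

theorem lk14 : linkOK 25 3 14 [9, 11, 14, 18, 23] mv14 facT = true := by decide +kernel


end Pool.Agent.TH640.Data
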