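import Pool.Agent.TH640.Cells
import Pool.Agent.TH640.Data.Fac

/-!
Certificate data (generated).
-/

set_option maxRecDepth 100000

namespace Pool.Agent.TH640.Data

open Pool.Agent.TH640

/-- moves for the link of 15 -/
def mv15 : List (List ℕ × List ℕ) :=
    [([15], [2, 4, 9, 17]), ([10, 15], [4, 9, 17]), ([15, 21], [2, 4, 9]), ([8, 15], [2, 4, 21]), ([7,
    15], [4, 10, 17]), ([1, 15], [7, 10, 17]), ([14, 15], [1, 7, 10]), ([15, 24], [4, 9, 21]), ([0, 15],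
    [2, 8, 21]), ([3, 15], [9, 21, 24]), ([8, 15, 24], [4, 21]), ([15, 19], [1, 7, 17]), ([5, 15], [8,
    21, 24]), ([13, 15], [3, 21, 24]), ([15, 18], [5, 8, 21]), ([2, 10, 15], [9, 17]), ([0, 9, 15], [2,
    21]), ([11, 15], [1, 10, 14]), ([0, 3, 15], [9, 21]), ([10, 15, 19], [1, 17]), ([5, 13, 15], [21,
    24]), ([15, 23], [5, 13, 21]), ([0, 15, 18], [8, 21]), ([8, 9, 15], [4, 24]), ([5, 9, 15], [8, 24]),
    ([11, 15, 19], [1, 10]), ([8, 10, 15], [4, 9]), ([14, 15, 19], [10, 11]), ([3, 5, 15], [9, 24]),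
    ([0, 5, 15], [3, 9]), ([15, 16], [11, 14, 19]), ([7, 8, 15], [4, 10]), ([3, 5, 13, 15], [24]), ([1,
    15, 16], [11, 19]), ([15, 22], [11, 14, 16]), ([2, 7, 15], [4, 8]), ([0, 7, 15], [2, 8]), ([6, 15],
    [11, 16, 22]), ([2, 15, 19], [10, 17]), ([1, 6, 15], [11, 16]), ([15, 18, 23], [5, 21]), ([3, 15,
    23], [13, 21]), ([8, 14, 15], [7, 10]), ([0, 15, 23], [18, 21]), ([0, 14, 15], [7, 8]), ([14, 15,
    18], [0, 8]), ([8, 15, 19], [10, 14]), ([0, 3, 15, 23], [21]), ([2, 7, 15, 17], [4]), ([5, 14, 15],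
    [8, 18]), ([9, 15, 19], [8, 10]), ([14, 15, 23], [5, 18]), ([2, 9, 15, 19], [10]), ([2, 7, 15, 19],
    [17]), ([0, 15, 19], [2, 9]), ([0, 1, 15], [7, 14]), ([5, 15, 19], [8, 14]), ([5, 9, 15, 19], [8]),
    ([5, 15, 16], [14, 19]), ([1, 15, 18], [0, 14]), ([1, 15, 23], [0, 18]), ([0, 5, 15, 19], [9]), ([0,
    7, 15, 19], [2]), ([11, 15, 18], [1, 14]), ([0, 1, 15, 19], [7]), ([11, 15, 23], [1, 18]), ([0, 15,
    16], [5, 19]), ([5, 15, 22], [14, 16]), ([11, 14, 15, 23], [18]), ([0, 1, 15, 16], [19]), ([15, 16,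
    23], [0, 1]), ([15, 22, 23], [5, 14]), ([13, 15, 22], [5, 23]), ([6, 15, 23], [1, 11]), ([6, 15, 16,
    23], [1]), ([3, 15, 16], [0, 23]), ([11, 15, 22, 23], [14]), ([3, 6, 15], [16, 23]), ([3, 15, 22],
    [6, 16]), ([3, 5, 15, 16], [0]), ([3, 5, 15, 22], [16]), ([3, 13, 15, 22], [5]), ([6, 15, 22, 23],
    [11]), ([6, 13, 15], [3, 22]), ([6, 13, 15, 23], [3])]

theorem lk15 : linkOK 25 3 15 [6, 13, 15, 22, 23] mv15 facT = true := by decide +kernel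

/-- moves for the link of 16 -/
def mv16 : List (List ℕ × List ℕ) :=
    [([16], [0, 4, 14, 19]), ([5, 16], [0, 4, 14]), ([1, 16], [0, 4, 19]), ([15, 16], [0, 1, 19]), ([16,
    23], [0, 1, 15]), ([6, 16], [1, 15, 23]), ([4, 16, 23], [0, 1]), ([12, 16], [1, 4, 23]), ([11, 16],
    [1, 6, 15]), ([3, 16], [0, 15, 23]), ([5, 16, 23], [0, 4]), ([3, 6, 16], [15, 23]), ([12, 16, 19],
    [1, 4]), ([16, 17], [3, 6, 23]), ([12, 14, 16], [4, 19]), ([16, 22], [6, 11, 15]), ([14, 16, 23],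
    [4, 5]), ([12, 14, 16, 23], [4]), ([6, 12, 16], [1, 23]), ([16, 20], [1, 12, 19]), ([3, 5, 16], [0,
    23]), ([12, 16, 17], [6, 23]), ([3, 16, 22], [6, 15]), ([13, 16], [12, 19, 20]), ([11, 16, 19], [1,
    15]), ([5, 16, 19], [0, 14]), ([10, 16], [3, 6, 17]), ([10, 16, 22], [3, 6]), ([5, 15, 16], [0,
    19]), ([16, 18], [6, 10, 17]), ([6, 16, 20], [1, 12]), ([11, 16, 20], [1, 6]), ([14, 15, 16], [5,
    19]), ([11, 14, 16], [15, 19]), ([16, 24], [6, 11, 20]), ([11, 12, 16], [14, 19]), ([16, 17, 22],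
    [3, 10]), ([16, 22, 23], [3, 17]), ([11, 16, 19, 20], [1]), ([14, 16, 22], [11, 15]), ([11, 13, 16],
    [19, 20]), ([3, 5, 15, 16], [0]), ([12, 16, 18], [6, 17]), ([11, 12, 13, 16], [19]), ([5, 16, 22],
    [3, 15]), ([13, 16, 24], [11, 20]), ([16, 18, 20], [6, 12]), ([5, 14, 16, 22], [15]), ([5, 16, 22,
    23], [3]), ([11, 16, 23], [12, 14]), ([16, 22, 24], [6, 11]), ([10, 16, 20], [6, 18]), ([14, 16, 22,
    23], [5]), ([10, 16, 24], [6, 20]), ([16, 17, 20], [10, 18]), ([11, 16, 17], [12, 23]), ([16, 17,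
    24], [10, 20]), ([11, 16, 22, 23], [14]), ([12, 16, 17, 20], [18]), ([13, 16, 17], [12, 20]), ([11,
    13, 16, 17], [12]), ([13, 16, 17, 24], [20]), ([10, 16, 22, 24], [6]), ([11, 16, 17, 22], [23]),
    ([11, 16, 17, 24], [13]), ([16, 17, 22, 24], [11])]

theorem lk16 : linkOK 25 3 16 [10, 16, 17, 22, 24] mv16 facT = true := by decide +kernel

/-- moves for the link of 17 -/
def mv17 : List (List ℕ × List ℕ) :=
    [([17], [6, 7, 11, 24]), ([17, 19], [6, 7, 24]), ([17, 22], [6, 11, 24]), ([5, 17], [7, 11, 24]),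
    ([17, 23], [6, 11, 22]), ([1, 17], [7, 19, 24]), ([13, 17], [5, 11, 24]), ([16, 17], [11, 22, 23]),
    ([17, 21], [5, 13, 24]), ([16, 17, 24], [11, 22]), ([13, 16, 17], [11, 24]), ([8, 17], [6, 11, 23]),
    ([1, 5, 17], [7, 24]), ([17, 20], [6, 7, 11]), ([0, 17], [6, 11, 20]), ([12, 17], [0, 11, 20]), ([4,
    17], [6, 7, 20]), ([10, 17], [16, 22, 24]), ([3, 17], [10, 16, 22]), ([2, 17], [6, 7, 19]), ([5, 17,
    20], [7, 11]), ([0, 4, 17], [6, 20]), ([0, 8, 17], [6, 11]), ([8, 12, 17], [0, 11]), ([12, 17, 23],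
    [8, 11]), ([17, 19, 22], [6, 24]), ([17, 18], [0, 8, 12]), ([1, 17, 22], [19, 24]), ([14, 17], [0,
    6, 8]), ([5, 12, 17], [11, 20]), ([1, 10, 17], [22, 24]), ([2, 4, 17], [6, 7]), ([17, 19, 23], [6,
    22]), ([14, 17, 18], [0, 8]), ([17, 18, 20], [0, 12]), ([3, 17, 23], [16, 22]), ([1, 3, 17], [10,
    22]), ([15, 17], [1, 7, 19]), ([12, 13, 17], [5, 11]), ([6, 12, 17], [8, 23]), ([6, 17, 18], [8,
    12]), ([3, 17, 19], [22, 23]), ([13, 17, 20], [5, 12]), ([1, 17, 21], [5, 24]), ([1, 3, 17, 19],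
    [22]), ([4, 14, 17], [0, 6]), ([12, 16, 17], [11, 13]), ([2, 14, 17], [4, 6]), ([2, 15, 17], [7,
    19]), ([12, 16, 17, 23], [11]), ([4, 15, 17], [2, 7]), ([16, 17, 20], [12, 13]), ([16, 17, 18], [12,
    20]), ([10, 17, 19], [1, 3]), ([3, 6, 17], [19, 23]), ([7, 17, 21], [1, 5]), ([6, 16, 17], [12,
    23]), ([17, 20, 24], [13, 16]), ([10, 15, 17], [1, 19]), ([3, 6, 16, 17], [23]), ([9, 17], [2, 4,
    15]), ([6, 10, 17], [3, 19]), ([7, 10, 17], [1, 15]), ([17, 20, 21], [5, 13]), ([10, 17, 21], [1,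
    7]), ([6, 16, 17, 18], [12]), ([7, 17, 20, 21], [5]), ([10, 17, 20], [16, 24]), ([10, 17, 18], [16,
    20]), ([9, 14, 17], [2, 4]), ([2, 10, 17], [6, 19]), ([6, 10, 16, 17], [3]), ([6, 14, 17, 18], [8]),
    ([4, 17, 18], [0, 20]), ([2, 10, 15, 17], [19]), ([4, 14, 17, 18], [0]), ([2, 17, 18], [6, 14]),
    ([4, 10, 17], [7, 15]), ([6, 10, 17, 18], [16]), ([9, 10, 17], [2, 15]), ([17, 20, 21, 24], [13]),
    ([9, 17, 18], [4, 14]), ([10, 17, 21, 24], [1]), ([2, 9, 17, 18], [14]), ([2, 10, 17, 18], [6]),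
    ([10, 17, 20, 21], [24]), ([9, 10, 17, 18], [2]), ([7, 10, 17, 20], [21]), ([4, 9, 10, 17], [15]),
    ([4, 10, 17, 20], [7]), ([4, 10, 17, 18], [9])]

theorem lk17 : linkOK 25 3 17 [4, 10, 17, 18, 20] mv17 facT = true := by decide +kernel

/-- moves for the link of 18 -/
def mv18 : List (List ℕ × List ℕ) :=
    [([18], [0, 8, 12, 17]), ([18, 21], [0, 8, 12]), ([15, 18], [0, 8, 21]), ([18, 20], [0, 12, 17]),
    ([4, 18], [0, 17, 20]), ([6, 18], [8, 12, 21]), ([6, 17, 18], [8, 12]), ([14, 18], [6, 8, 17]), ([2,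
    18], [6, 14, 17]), ([0, 14, 18], [8, 17]), ([4, 14, 18], [0, 17]), ([10, 18], [4, 17, 20]), ([9,
    18], [2, 14, 17]), ([18, 23], [0, 15, 21]), ([14, 15, 18], [0, 8]), ([1, 18], [0, 14, 15]), ([5,
    18], [15, 21, 23]), ([11, 18], [1, 14, 15]), ([5, 8, 18], [15, 21]), ([1, 4, 18], [0, 14]), ([5, 6,
    18], [8, 21]), ([0, 5, 18], [21, 23]), ([5, 14, 18], [8, 15]), ([5, 6, 14, 18], [8]), ([0, 6, 18],
    [5, 21]), ([0, 6, 12, 18], [21]), ([14, 18, 23], [5, 15]), ([16, 18], [10, 17, 20]), ([2, 5, 18],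
    [6, 14]), ([1, 18, 23], [0, 15]), ([4, 18, 23], [0, 1]), ([11, 18, 23], [1, 15]), ([11, 14, 18, 23],
    [15]), ([12, 16, 18], [17, 20]), ([2, 18, 23], [5, 14]), ([4, 5, 18], [0, 23]), ([2, 4, 18], [5,
    23]), ([6, 16, 18], [12, 17]), ([6, 18, 20], [12, 16]), ([6, 10, 18], [16, 20]), ([4, 6, 18], [10,
    20]), ([9, 18, 23], [2, 14]), ([0, 6, 18, 20], [12]), ([0, 4, 6, 18], [20]), ([6, 10, 17, 18],
    [16]), ([2, 10, 18], [6, 17]), ([9, 11, 18], [14, 23]), ([4, 5, 6, 18], [0]), ([1, 9, 18], [11,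
    14]), ([4, 9, 18], [1, 14]), ([4, 9, 17, 18], [14]), ([1, 9, 18, 23], [11]), ([4, 9, 18, 23], [1]),
    ([9, 10, 18], [2, 17]), ([10, 18, 23], [2, 9]), ([4, 9, 10, 18], [17]), ([2, 4, 6, 18], [5]), ([4,
    10, 18, 23], [9]), ([2, 4, 10, 18], [6])]

theorem lk18 : linkOK 25 3 18 [2, 4, 10, 18, 23] mv18 facT = true := by decide +kernel

/-- moves for the link of 19 -/
def mv19 : List (List ℕ × List ℕ) :=
    [([19], [10, 12, 22, 24]), ([1, 19], [12, 22, 24]), ([4, 19], [1, 12, 24]), ([13, 19], [10, 12,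
    22]), ([17, 19], [1, 22, 24]), ([6, 19], [17, 22, 24]), ([6, 10, 19], [22, 24]), ([3, 19], [1, 17,
    22]), ([19, 23], [6, 17, 22]), ([6, 13, 19], [10, 22]), ([19, 20], [1, 12, 22]), ([14, 19], [10, 12,
    24]), ([4, 14, 19], [12, 24]), ([13, 19, 20], [12, 22]), ([16, 19], [12, 13, 20]), ([11, 19], [10,
    12, 14]), ([7, 19], [6, 10, 24]), ([1, 14, 19], [4, 24]), ([0, 19], [1, 4, 14]), ([13, 19, 23], [6,
    22]), ([2, 19], [6, 7, 10]), ([3, 19, 23], [17, 22]), ([3, 6, 19], [17, 23]), ([19, 20, 23], [13,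
    22]), ([1, 16, 19], [12, 20]), ([4, 16, 19], [1, 12]), ([8, 19], [2, 7, 10]), ([0, 16, 19], [1, 4]),
    ([14, 16, 19], [0, 4]), ([9, 19], [2, 8, 10]), ([7, 17, 19], [6, 24]), ([3, 19, 20], [1, 22]), ([2,
    17, 19], [6, 7]), ([15, 19], [0, 1, 16]), ([1, 7, 19], [17, 24]), ([5, 19], [0, 15, 16]), ([5, 14,
    19], [0, 16]), ([12, 14, 16, 19], [4]), ([10, 17, 19], [2, 6]), ([11, 16, 19], [12, 14]), ([3, 19,
    20, 23], [22]), ([14, 15, 19], [5, 16]), ([3, 10, 19], [6, 17]), ([3, 13, 19], [6, 23]), ([1, 10,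
    19], [3, 17]), ([11, 15, 19], [14, 16]), ([11, 13, 19], [12, 16]), ([7, 14, 19], [1, 24]), ([1, 11,
    19], [15, 16]), ([10, 15, 19], [11, 14]), ([7, 10, 14, 19], [24]), ([11, 19, 20], [13, 16]), ([8,
    14, 19], [7, 10]), ([3, 13, 19, 20], [23]), ([8, 15, 19], [10, 14]), ([1, 11, 19, 20], [16]), ([0,
    7, 19], [1, 14]), ([7, 15, 19], [0, 1]), ([3, 11, 19], [1, 20]), ([3, 10, 13, 19], [6]), ([0, 8,
    19], [7, 14]), ([5, 8, 19], [0, 14]), ([5, 8, 15, 19], [14]), ([3, 12, 19], [10, 13]), ([9, 15, 19],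
    [8, 10]), ([0, 2, 19], [7, 8]), ([3, 11, 13, 19], [20]), ([2, 15, 19], [0, 7]), ([5, 9, 19], [8,
    15]), ([0, 9, 19], [2, 8]), ([3, 11, 12, 19], [13]), ([0, 5, 9, 19], [8]), ([0, 9, 15, 19], [5]),
    ([15, 17, 19], [2, 7]), ([1, 15, 17, 19], [7]), ([2, 9, 15, 19], [0]), ([3, 10, 11, 19], [12]), ([2,
    10, 15, 19], [9]), ([1, 10, 11, 19], [3]), ([1, 10, 15, 19], [11]), ([10, 15, 17, 19], [2])]

theorem lk19 : linkOK 25 3 19 [1, 10, 15, 17, 19] mv19 facT = true := by decide +kernel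


end Pool.Agent.TH640.Data
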