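import Pool.Agent.TH640.Cells
import Pool.Agent.TH640.Data.Fac

/-!
Certificate data (generated).
-/

set_option maxRecDepth 100000

namespace Pool.Agent.TH640.Data

open Pool.Agent.TH640

/-- moves for the link of 20 -/
def mv20 : List (List ℕ × List ℕ) :=
    [([20], [0, 12, 17, 18]), ([16, 20], [12, 17, 18]), ([11, 20], [0, 12, 17]), ([6, 20], [0, 12, 18]),
    ([4, 20], [0, 6, 18]), ([4, 17, 20], [0, 18]), ([10, 20], [4, 17, 18]), ([9, 20], [0, 11, 12]),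
    ([13, 20], [12, 16, 17]), ([6, 10, 20], [4, 18]), ([19, 20], [12, 13, 16]), ([6, 9, 20], [0, 12]),
    ([5, 20], [12, 13, 17]), ([1, 20], [9, 11, 12]), ([1, 6, 20], [9, 12]), ([20, 24], [13, 16, 17]),
    ([6, 16, 20], [12, 18]), ([10, 16, 20], [17, 18]), ([1, 16, 20], [6, 12]), ([10, 20, 24], [16, 17]),
    ([3, 20], [1, 11, 12]), ([5, 11, 20], [12, 17]), ([6, 10, 16, 20], [18]), ([7, 20], [4, 10, 17]),
    ([20, 22], [1, 3, 12]), ([20, 21], [5, 13, 17]), ([20, 21, 24], [13, 17]), ([6, 11, 20], [0, 9]),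
    ([6, 17, 20], [0, 4]), ([10, 20, 21], [17, 24]), ([7, 20, 21], [10, 17]), ([5, 7, 20], [17, 21]),
    ([6, 20, 24], [10, 16]), ([1, 19, 20], [12, 16]), ([3, 5, 20], [11, 12]), ([5, 20, 22], [3, 12]),
    ([6, 7, 20], [4, 17]), ([6, 7, 10, 20], [4]), ([7, 11, 20], [5, 17]), ([7, 20, 24], [6, 10]), ([7,
    20, 21, 24], [10]), ([19, 20, 22], [1, 12]), ([1, 6, 11, 20], [9]), ([20, 23], [3, 5, 22]), ([3, 19,
    20], [1, 22]), ([19, 20, 23], [3, 22]), ([6, 11, 17, 20], [0]), ([11, 19, 20], [1, 3]), ([13, 20,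
    22], [5, 12]), ([13, 19, 20, 22], [12]), ([6, 7, 11, 20], [17]), ([11, 16, 20], [1, 6]), ([11, 16,
    19, 20], [1]), ([11, 20, 24], [6, 16]), ([11, 13, 20], [16, 24]), ([13, 20, 23], [19, 22]), ([3, 13,
    20], [19, 23]), ([11, 13, 19, 20], [16]), ([3, 11, 13, 20], [19]), ([3, 20, 24], [11, 13]), ([3, 20,
    21], [13, 24]), ([7, 11, 20, 24], [6]), ([5, 20, 24], [3, 11]), ([3, 7, 20], [21, 24]), ([20, 21,
    23], [3, 13]), ([5, 7, 20, 24], [11]), ([5, 13, 20, 23], [22]), ([5, 20, 21, 23], [13]), ([3, 5, 7,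
    20], [24]), ([3, 5, 20, 21], [7])]

theorem lk20 : linkOK 25 3 20 [3, 5, 20, 21, 23] mv20 facT = true := by decide +kernel

/-- moves for the link of 21 -/
def mv21 : List (List ℕ × List ℕ) :=
    [([21], [0, 8, 9, 12]), ([6, 21], [0, 9, 12]), ([5, 21], [0, 6, 9]), ([18, 21], [0, 5, 6]), ([1,
    21], [5, 6, 9]), ([12, 18, 21], [0, 6]), ([8, 18, 21], [0, 12]), ([7, 21], [1, 5, 9]), ([21, 23],
    [0, 5, 18]), ([3, 21], [0, 5, 23]), ([2, 21], [0, 8, 9]), ([15, 21], [0, 8, 18]), ([1, 12, 21], [6,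
    9]), ([3, 9, 21], [0, 5]), ([6, 8, 21], [12, 18]), ([2, 12, 21], [8, 9]), ([14, 21], [1, 7, 9]),
    ([1, 8, 21], [6, 12]), ([5, 8, 21], [1, 6]), ([21, 24], [1, 5, 8]), ([4, 21], [2, 8, 12]), ([3, 7,
    21], [5, 9]), ([5, 8, 18, 21], [6]), ([20, 21], [3, 5, 23]), ([2, 15, 21], [0, 8]), ([12, 14, 21],
    [1, 9]), ([10, 21], [1, 7, 14]), ([13, 21], [3, 20, 23]), ([17, 21], [1, 5, 7]), ([15, 21, 23], [0,
    18]), ([9, 15, 21], [0, 2]), ([5, 13, 21], [20, 23]), ([10, 12, 21], [1, 14]), ([7, 20, 21], [3,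
    5]), ([17, 21, 24], [1, 5]), ([2, 14, 21], [9, 12]), ([3, 15, 21], [0, 23]), ([5, 15, 21], [18,
    23]), ([4, 14, 21], [2, 12]), ([17, 20, 21], [5, 7]), ([4, 9, 21], [2, 14]), ([4, 15, 21], [2, 9]),
    ([12, 21, 24], [1, 8]), ([4, 8, 15, 21], [2]), ([10, 17, 21], [1, 7]), ([10, 21, 24], [1, 12]),
    ([13, 15, 21], [3, 23]), ([10, 17, 21, 24], [1]), ([10, 20, 21], [7, 17]), ([14, 21, 24], [10, 12]),
    ([13, 17, 21], [5, 20]), ([13, 21, 24], [5, 17]), ([20, 21, 24], [13, 17]), ([4, 21, 24], [12, 14]),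
    ([9, 21, 24], [4, 14]), ([7, 21, 24], [9, 14]), ([3, 21, 24], [13, 20]), ([3, 9, 15, 21], [0]),
    ([10, 20, 21, 24], [17]), ([5, 13, 15, 21], [23]), ([15, 21, 24], [3, 13]), ([5, 8, 15, 21], [18]),
    ([5, 15, 21, 24], [13]), ([7, 10, 21, 24], [14]), ([8, 15, 21, 24], [5]), ([7, 20, 21, 24], [10]),
    ([3, 7, 21, 24], [20]), ([4, 8, 21, 24], [12]), ([4, 15, 21, 24], [8]), ([3, 9, 21, 24], [7]), ([9,
    15, 21, 24], [3])]

theorem lk21 : linkOK 25 3 21 [4, 9, 15, 21, 24] mv21 facT = true := by decide +kernel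

/-- moves for the link of 22 -/
def mv22 : List (List ℕ × List ℕ) :=
    [([22], [6, 11, 17, 24]), ([22, 23], [6, 11, 17]), ([19, 22], [6, 17, 23]), ([19, 22, 24], [6, 17]),
    ([1, 22], [17, 19, 24]), ([16, 22], [6, 11, 24]), ([15, 22], [6, 11, 16]), ([12, 22], [1, 19, 24]),
    ([16, 17, 22], [11, 24]), ([10, 22], [1, 17, 24]), ([15, 22, 23], [6, 11]), ([10, 16, 22], [17,
    24]), ([13, 22], [6, 15, 23]), ([3, 22], [10, 16, 17]), ([10, 12, 22], [1, 24]), ([20, 22], [1, 12,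
    19]), ([14, 22], [11, 15, 23]), ([5, 22], [14, 15, 23]), ([5, 13, 22], [15, 23]), ([13, 19, 22], [6,
    23]), ([1, 3, 22], [10, 17]), ([3, 12, 22], [1, 10]), ([16, 22, 23], [11, 17]), ([6, 10, 22], [16,
    24]), ([14, 16, 22], [11, 23]), ([10, 19, 22], [6, 24]), ([10, 12, 19, 22], [24]), ([3, 19, 22], [1,
    17]), ([10, 13, 22], [6, 19]), ([3, 22, 23], [17, 19]), ([3, 6, 22], [10, 16]), ([12, 13, 22], [10,
    19]), ([14, 15, 16, 22], [11]), ([3, 20, 22], [1, 19]), ([3, 15, 22], [6, 16]), ([3, 12, 20, 22],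
    [1]), ([13, 20, 22], [12, 19]), ([3, 13, 22], [6, 15]), ([3, 16, 22, 23], [17]), ([3, 10, 13, 22],
    [6]), ([20, 22, 23], [13, 19]), ([3, 12, 13, 22], [10]), ([3, 5, 22], [13, 15]), ([5, 16, 22], [14,
    15]), ([3, 20, 22, 23], [19]), ([3, 5, 16, 22], [15]), ([5, 12, 22], [3, 13]), ([5, 16, 22, 23],
    [14]), ([5, 20, 22], [13, 23]), ([5, 12, 20, 22], [13]), ([3, 5, 20, 22], [12]), ([3, 5, 22, 23],
    [20])]

theorem lk22 : linkOK 25 3 22 [3, 5, 16, 22, 23] mv22 facT = true := by decide +kernel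

/-- moves for the link of 23 -/
def mv23 : List (List ℕ × List ℕ) :=
    [([23], [6, 12, 16, 17]), ([11, 23], [12, 16, 17]), ([1, 23], [6, 12, 16]), ([8, 23], [11, 12, 17]),
    ([22, 23], [11, 16, 17]), ([3, 23], [6, 16, 17]), ([4, 23], [1, 12, 16]), ([9, 23], [8, 11, 12]),
    ([14, 23], [11, 12, 16]), ([3, 22, 23], [16, 17]), ([5, 23], [3, 16, 22]), ([0, 23], [1, 4, 16]),
    ([4, 14, 23], [12, 16]), ([15, 23], [1, 6, 16]), ([19, 23], [3, 6, 17]), ([20, 23], [3, 5, 22]),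
    ([13, 23], [3, 6, 19]), ([0, 15, 23], [1, 16]), ([21, 23], [3, 5, 20]), ([6, 8, 23], [12, 17]), ([1,
    8, 23], [6, 12]), ([14, 22, 23], [11, 16]), ([18, 23], [0, 1, 4]), ([2, 23], [4, 12, 14]), ([3, 15,
    23], [6, 16]), ([6, 11, 23], [8, 17]), ([0, 3, 23], [15, 16]), ([6, 9, 23], [8, 11]), ([19, 22, 23],
    [3, 17]), ([15, 18, 23], [0, 1]), ([1, 9, 23], [6, 8]), ([1, 11, 23], [6, 9]), ([11, 15, 23], [1,
    6]), ([6, 22, 23], [17, 19]), ([19, 20, 23], [3, 22]), ([13, 20, 23], [3, 19]), ([11, 18, 23], [1,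
    15]), ([13, 21, 23], [3, 20]), ([4, 8, 23], [1, 12]), ([5, 13, 23], [20, 21]), ([9, 14, 23], [11,
    12]), ([13, 15, 23], [3, 6]), ([4, 9, 23], [1, 8]), ([2, 8, 23], [4, 12]), ([9, 18, 23], [1, 11]),
    ([14, 18, 23], [9, 11]), ([13, 22, 23], [6, 19]), ([5, 14, 23], [16, 22]), ([10, 23], [2, 4, 8]),
    ([4, 5, 23], [14, 16]), ([15, 22, 23], [6, 13]), ([0, 5, 23], [3, 16]), ([14, 15, 23], [11, 18]),
    ([4, 9, 18, 23], [1]), ([2, 9, 23], [8, 12]), ([2, 9, 14, 23], [12]), ([2, 5, 23], [4, 14]), ([2,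
    18, 23], [9, 14]), ([9, 10, 23], [4, 8]), ([0, 21, 23], [3, 5]), ([15, 21, 23], [0, 3]), ([0, 4, 5,
    23], [16]), ([5, 18, 23], [0, 4]), ([18, 21, 23], [0, 15]), ([6, 11, 22, 23], [17]), ([5, 18, 21,
    23], [0]), ([13, 15, 21, 23], [3]), ([13, 20, 22, 23], [19]), ([5, 15, 23], [18, 21]), ([10, 18,
    23], [4, 9]), ([2, 9, 10, 23], [8]), ([11, 15, 22, 23], [6]), ([14, 15, 22, 23], [11]), ([5, 13, 15,
    23], [21]), ([2, 10, 18, 23], [9]), ([2, 4, 18, 23], [10]), ([5, 13, 22, 23], [20]), ([2, 5, 18,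
    23], [4]), ([5, 15, 22, 23], [13]), ([5, 14, 18, 23], [2]), ([5, 14, 15, 23], [18])]

theorem lk23 : linkOK 25 3 23 [5, 14, 15, 22, 23] mv23 facT = true := by decide +kernel

/-- moves for the link of 24 -/
def mv24 : List (List ℕ × List ℕ) :=
    [([24], [1, 7, 9, 14]), ([5, 24], [1, 7, 9]), ([21, 24], [7, 9, 14]), ([10, 24], [7, 14, 21]), ([4,
    24], [1, 9, 14]), ([19, 24], [7, 10, 14]), ([3, 24], [5, 7, 9]), ([20, 24], [7, 10, 21]), ([3, 21,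
    24], [7, 9]), ([17, 24], [1, 5, 7]), ([15, 24], [3, 9, 21]), ([1, 19, 24], [7, 14]), ([13, 24], [3,
    15, 21]), ([17, 19, 24], [1, 7]), ([6, 24], [7, 10, 20]), ([11, 24], [5, 7, 17]), ([3, 20, 24], [7,
    21]), ([8, 24], [1, 4, 9]), ([6, 19, 24], [7, 10]), ([12, 24], [10, 14, 19]), ([5, 8, 24], [1, 9]),
    ([5, 20, 24], [3, 7]), ([6, 17, 24], [7, 19]), ([11, 20, 24], [5, 7]), ([16, 24], [6, 10, 20]),
    ([22, 24], [10, 12, 19]), ([13, 20, 24], [3, 21]), ([6, 11, 24], [7, 20]), ([3, 11, 24], [5, 20]),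
    ([4, 19, 24], [1, 14]), ([11, 13, 24], [3, 20]), ([6, 11, 17, 24], [7]), ([6, 22, 24], [10, 19]),
    ([4, 21, 24], [9, 14]), ([17, 22, 24], [6, 19]), ([5, 15, 24], [3, 9]), ([1, 22, 24], [17, 19]),
    ([16, 22, 24], [6, 10]), ([1, 12, 24], [19, 22]), ([1, 10, 24], [12, 22]), ([4, 12, 24], [1, 19]),
    ([11, 22, 24], [6, 17]), ([10, 17, 24], [1, 22]), ([5, 13, 24], [3, 11]), ([16, 17, 24], [10, 22]),
    ([17, 20, 24], [10, 16]), ([11, 16, 24], [6, 20]), ([4, 15, 24], [9, 21]), ([12, 21, 24], [10, 14]),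
    ([13, 16, 24], [11, 20]), ([13, 17, 24], [16, 20]), ([17, 21, 24], [10, 20]), ([11, 16, 22, 24],
    [6]), ([5, 13, 15, 24], [3]), ([11, 16, 17, 24], [22]), ([13, 17, 21, 24], [20]), ([1, 21, 24], [10,
    12]), ([8, 12, 24], [1, 4]), ([8, 21, 24], [1, 12]), ([8, 15, 24], [4, 9]), ([1, 17, 21, 24], [10]),
    ([5, 21, 24], [1, 17]), ([5, 8, 15, 24], [9]), ([11, 13, 17, 24], [16]), ([4, 12, 14, 24], [19]),
    ([5, 13, 17, 24], [11]), ([5, 8, 21, 24], [1]), ([4, 12, 21, 24], [14]), ([4, 8, 21, 24], [12]),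
    ([5, 13, 21, 24], [17]), ([8, 15, 21, 24], [4]), ([5, 15, 21, 24], [13])]

theorem lk24 : linkOK 25 3 24 [5, 8, 15, 21, 24] mv24 facT = true := by decide +kernel


end Pool.Agent.TH640.Data
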