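import Pool.Agent.TH640.Cells
import Pool.Agent.TH640.Data.Fac

/-!
Certificate data (generated).
-/

set_option maxRecDepth 100000

namespace Pool.Agent.TH640.Data

open Pool.Agent.TH640

theorem fac_ok : facOK 25 5 facT = true := by decide +kernel

theorem coc_ok : cocOK tab facT = true := by decide +kernel

theorem core_ok : coreOK 768 4268032 facT = true := by decide +kernel

theorem kconn_ok : kconnOK 25 0 (btKeys facT)
    [(1, 0), (2, 0), (3, 0), (4, 0), (5, 0), (6, 0), (7, 0), (8, 0), (9, 0), (10, 1), (11, 0), (12, 0),
    (13, 3), (14, 0), (15, 0), (16, 0), (17, 0), (18, 0), (19, 0), (20, 0), (21, 0), (22, 1), (23, 0),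
    (24, 1)] = true := by decide +kernel

end Pool.Agent.TH640.Data
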